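import Pool.Agent.MP_9ab903_nt.S3.SDefs

set_option autoImplicit false

open NumberField IsDedekindDomain CM27 BS3
open scoped Classical

namespace SB3

/-! ## [SB3-S6] `ρ(Q + T) = ρ(Q) ρ(T)` for `T` in the kernel (file S6.lean) -/

theorem s6_zero {k : ℤ} {K : Type} [Field K] :
    (WeierstrassCurve.Affine.Point.zero : (W k K).toAffine.Point) = 0 := rfl

theorem s6_rho_zero (δ e : ℤ) {k : ℤ} {K : Type} [Field K] :
    rho δ e (0 : (W k K).toAffine.Point) = 1 := rfl

theorem s6_ker_zero {k : ℤ} {K : Type} [Field K] : Ker (0 : (W k K).toAffine.Point) := trivial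

theorem s6_negY {k : ℤ} {K : Type} [Field K] (x y : K) : (W k K).toAffine.negY x y = -y := by
  simp [WeierstrassCurve.Affine.negY, W]

theorem s6_add_ne {k : ℤ} {K : Type} [Field K] {x₁ y₁ x₂ y₂ : K}
    (h₁ : (W k K).toAffine.Nonsingular x₁ y₁) (h₂ : (W k K).toAffine.Nonsingular x₂ y₂)
    (hx : x₁ ≠ x₂) :
    ∃ (X Y : K) (h : (W k K).toAffine.Nonsingular X Y),
      (WeierstrassCurve.Affine.Point.some x₁ y₁ h₁ + .some x₂ y₂ h₂ = .some X Y h) ∧
      X = ((y₁ - y₂) / (x₁ - x₂)) ^ 2 - x₁ - x₂ ∧
      Y = -((y₁ - y₂) / (x₁ - x₂) * (X - x₁) + y₁) := by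
  have hxy : ¬ (x₁ = x₂ ∧ y₁ = (W k K).toAffine.negY x₂ y₂) := fun h => hx h.1
  rw [WeierstrassCurve.Affine.Point.add_some hxy]
  refine ⟨_, _, _, rfl, ?_, ?_⟩
  · rw [WeierstrassCurve.Affine.slope_of_X_ne hx]
    simp [WeierstrassCurve.Affine.addX, W]
  · rw [WeierstrassCurve.Affine.slope_of_X_ne hx]
    simp [WeierstrassCurve.Affine.addX, WeierstrassCurve.Affine.addY,
      WeierstrassCurve.Affine.negAddY, WeierstrassCurve.Affine.negY, W]

theorem s6_add_self {k : ℤ} {K : Type} [Field K] [CharZero K] {t : K} (ht : t ≠ 0)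
    (h₁ : (W k K).toAffine.Nonsingular 0 t) :
    ∃ (h : (W k K).toAffine.Nonsingular 0 (-t)),
      (WeierstrassCurve.Affine.Point.some 0 t h₁ + .some 0 t h₁ = .some 0 (-t) h) := by
  have h2 : t ≠ (W k K).toAffine.negY 0 t := by
    rw [s6_negY]
    intro h
    apply ht
    have : (2 : K) * t = 0 := by linear_combination h
    rcases mul_eq_zero.1 this with h3 | h3
    · exact absurd h3 (by norm_num)
    · exact h3
  have hxy : ¬ ((0 : K) = 0 ∧ t = (W k K).toAffine.negY 0 t) := fun h => h2 h.2
  rw [WeierstrassCurve.Affine.Point.add_some hxy]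
  have hs : (W k K).toAffine.slope 0 0 t t = 0 := by
    rw [WeierstrassCurve.Affine.slope_of_Y_ne rfl h2]
    simp [W]
  have hX : (W k K).toAffine.addX 0 0 ((W k K).toAffine.slope 0 0 t t) = 0 := by
    rw [hs]; simp [WeierstrassCurve.Affine.addX, W]
  have hY : (W k K).toAffine.addY 0 0 t ((W k K).toAffine.slope 0 0 t t) = -t := by
    rw [hs]
    simp [WeierstrassCurve.Affine.addX, WeierstrassCurve.Affine.addY,
      WeierstrassCurve.Affine.negAddY, WeierstrassCurve.Affine.negY, W]
  refine ⟨?_, ?_⟩
  · have h3 := WeierstrassCurve.Affine.nonsingular_add h₁ h₁ hxy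
    rwa [hX, hY] at h3
  · rw [WeierstrassCurve.Affine.Point.some.injEq]
    exact ⟨hX, hY⟩

theorem rho_add {k δ e : ℤ} (hd : Dat k δ e) {K : Type} [Field K] [CharZero K]
    (Q T : (W k K).toAffine.Point) (hT : Ker T) : rho δ e (Q + T) = rho δ e Q * rho δ e T := by
  have hk : (k : K) ≠ 0 := by exact_mod_cast hd.ne
  have hδ : (δ : K) ≠ 0 := by exact_mod_cast hd.d_ne
  have he : (e : K) ≠ 0 := by exact_mod_cast hd.e_ne
  have heq : -3 * (k : K) = δ * e ^ 2 := by exact_mod_cast congrArg (Int.cast : ℤ → K) hd.eq
  cases T with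
  | zero => rw [s6_zero, add_zero, s6_rho_zero, mul_one]
  | some x' t h₂ =>
    have hx' : x' = 0 := hT
    subst hx'
    have ht : t ^ 2 = (k : K) := by
      have := (W_nonsingular hd.ne 0 t).1 h₂
      rw [this]; ring
    have ht0 : t ≠ 0 := by
      rintro rfl
      apply hk
      rw [← ht]; ring
    cases Q with
    | zero => rw [s6_zero, zero_add, s6_rho_zero, one_mul]
    | some x y h₁ =>
      have hy : y ^ 2 = x ^ 3 + k := (W_nonsingular hd.ne x y).1 h₁
      by_cases hx : x = 0
      · subst hx
        have hyt : (y - t) * (y + t) = 0 := by linear_combination hy - ht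
        rcases mul_eq_zero.1 hyt with h | h
        · have hyt' : y = t := sub_eq_zero.1 h
          subst hyt'
          obtain ⟨h3, h4⟩ := s6_add_self ht0 h₂
          rw [h4]
          simp only [rho, if_true]
          ext
          · simp only [QuadraticAlgebra.re_mul]
            field_simp
            linear_combination 3 * heq - 9 * ht
          · simp only [QuadraticAlgebra.im_mul]
            field_simp
            ring
        · have hyt' : y = -t := by linear_combination h
          rw [WeierstrassCurve.Affine.Point.add_of_Y_eq rfl (by rw [s6_negY]; exact hyt')]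
          rw [s6_rho_zero]
          simp only [rho, if_true]
          subst hyt'
          ext
          · simp only [QuadraticAlgebra.re_mul, QuadraticAlgebra.re_one]
            field_simp
            linear_combination -3 * heq + 9 * ht
          · simp only [QuadraticAlgebra.im_mul, QuadraticAlgebra.im_one]
            field_simp
            ring
      · have hxy3 : x ^ 3 = (y - t) * (y + t) := by linear_combination ht - hy
        have hyt : y - t ≠ 0 := by
          intro h
          rw [h, zero_mul] at hxy3
          exact hx (pow_eq_zero_iff (three_ne_zero) |>.1 hxy3)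
        obtain ⟨X, Y, h3, h4, hX, hY⟩ := s6_add_ne h₁ h₂ hx
        rw [h4]
        have hX' : X = -2 * t * (y - t) / x ^ 2 := by
          rw [hX]
          field_simp
          linear_combination (-x ^ 2) * hxy3
        have hX0 : X ≠ 0 := by
          rw [hX']
          exact div_ne_zero (mul_ne_zero (mul_ne_zero (by norm_num) ht0) hyt) (pow_ne_zero 2 hx)
        have hY' : Y = -((y - t) * X / x + t) := by
          rw [hY]
          field_simp
          ring
        simp only [rho, if_true, if_neg hx, if_neg hX0]
        ext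
        · simp only [QuadraticAlgebra.re_mul]
          rw [hY', hX']
          field_simp
          linear_combination hxy3
        · simp only [QuadraticAlgebra.im_mul]
          rw [hX']
          field_simp
          linear_combination ((e : K) ^ 2 * δ) * hxy3 + (y - t) * y * (-1 * heq + 3 * ht)

theorem ker_add {k : ℤ} (hk : k ≠ 0) {K : Type} [Field K] [CharZero K]
    (T T' : (W k K).toAffine.Point) (hT : Ker T) (hT' : Ker T') : Ker (T + T') := by
  have hk0 : (k : K) ≠ 0 := by exact_mod_cast hk
  cases T' with
  | zero => rw [s6_zero, add_zero]; exact hT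
  | some x' t h₂ =>
    have hx' : x' = 0 := hT'
    subst hx'
    have ht : t ^ 2 = (k : K) := by
      have := (W_nonsingular hk 0 t).1 h₂
      rw [this]; ring
    have ht0 : t ≠ 0 := by
      rintro rfl
      apply hk0
      rw [← ht]; ring
    cases T with
    | zero => rw [s6_zero, zero_add]; rfl
    | some x y h₁ =>
      have hx : x = 0 := hT
      subst hx
      have hy : y ^ 2 = 0 ^ 3 + (k : K) := (W_nonsingular hk 0 y).1 h₁
      have hyt : (y - t) * (y + t) = 0 := by linear_combination hy - ht
      rcases mul_eq_zero.1 hyt with h | h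
      · have hyt' : y = t := sub_eq_zero.1 h
        subst hyt'
        obtain ⟨h3, h4⟩ := s6_add_self ht0 h₂
        rw [h4]
        rfl
      · have hyt' : y = -t := by linear_combination h
        rw [WeierstrassCurve.Affine.Point.add_of_Y_eq rfl (by rw [s6_negY]; exact hyt')]
        exact s6_ker_zero

theorem ker_neg {k : ℤ} {K : Type} [Field K] (T : (W k K).toAffine.Point) (hT : Ker T) :
    Ker (-T) := by
  cases T with
  | zero => exact s6_ker_zero
  | some x t h =>
    rw [WeierstrassCurve.Affine.Point.neg_some]
    exact hT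

end SB3
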