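import Pool.Agent.MP_9ab903_nt.S3.S2
import Pool.Agent.MP_9ab903_nt.S3.S6
import Pool.Agent.MP_9ab903_nt.S3.S9

set_option autoImplicit false

open NumberField IsDedekindDomain CM27 BS3
open scoped Classical

namespace SB3

/-! ## [SB3-S10] the local conditions (file S10.lean; uses S2, S5, S6, S9) -/

theorem s10_mapQ_injective {δ : ℤ} {K L : Type} [Field K] [Field L] (f : K →+* L) :
    Function.Injective (mapQ f : Q2 δ K → Q2 δ L) := by
  intro z z' h
  rw [mapQ_apply, mapQ_apply] at h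
  have h1 := congrArg QuadraticAlgebra.re h
  have h2 := congrArg QuadraticAlgebra.im h
  ext
  · exact f.injective h1
  · exact f.injective h2

theorem s10_lift_apply {D : ℤ} {K L : Type} [Field K] [Field L] (ψ : K →+* L) (s : L)
    (hs : s * s = (D : L)) (z : Q2 D K) : q6_lift ψ s hs z = ψ z.re + ψ z.im * s := rfl

theorem s10_norm {δ : ℤ} {K : Type} [Field K] (a b : K) :
    (⟨a, b⟩ : Q2 δ K).norm = a ^ 2 - δ * b ^ 2 := by
  rw [QuadraticAlgebra.norm_def]
  ring

theorem s10_iso_ker {k : ℤ} (hk : k ≠ 0) {K : Type} [Field K] [CharZero K]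
    (B T : (W k K).toAffine.Point) (hT : Ker T) : iso hk (B + T) = iso hk B := by
  rw [iso_add, (iso_eq_zero hk T).2 hT, add_zero]

theorem locCond3 {k δ e : ℤ} (hd : Dat k δ e) (F L : Type) [Field F] [CharZero F] [Field L]
    [Algebra F L] [IsAlgClosure F L] (c : (L ≃ₐ[F] L) → (W k L).toAffine.Point)
    (hK : ∀ σ, Ker (c σ)) (S : Q2 δ L) (hS : IsUnit S)
    (h : ∀ σ : L ≃ₐ[F] L, mapQ (σ : L →+* L) S = rho δ e (c σ) * S)
    (z : Q2 δ F) (hz : mapQ (algebraMap F L) z = S ^ 3) (Fv Lv : Type) [Field Fv] [Algebra F Fv]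
    [Field Lv] [Algebra Fv Lv] [IsAlgClosure Fv Lv] [Algebra F Lv] [IsScalarTower F Fv Lv]
    (ι : L →ₐ[F] Lv) (Q : (W k Lv).toAffine.Point)
    (hQ : ∀ (τ : Lv ≃ₐ[Fv] Lv) (σ : L ≃ₐ[F] L), (∀ x, ι (σ x) = τ (ι x)) →
      ptW (ι : L →+* Lv) (c σ) = ptW (τ : Lv →+* Lv) Q - Q) : LocCond3 k e z Fv := by
  have : CharZero Fv := charZero_of_injective_algebraMap (algebraMap F Fv).injective
  have : CharZero Lv := charZero_of_injective_algebraMap (algebraMap F Lv).injective
  have : CharZero L := charZero_of_injective_algebraMap (algebraMap F L).injective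
  have : IsGalois F L := inferInstance
  have : IsGalois Fv Lv := inferInstance
  -- restriction of automorphisms
  have hres : ∀ τ : Lv ≃ₐ[Fv] Lv, ∃ σ : L ≃ₐ[F] L, ∀ x, ι (σ x) = τ (ι x) := by
    intro τ
    letI : Algebra L Lv := (ι : L →+* Lv).toAlgebra
    have : IsScalarTower F L Lv := IsScalarTower.of_algebraMap_eq' (by
      ext x
      show algebraMap F Lv x = ι (algebraMap F L x)
      rw [ι.commutes])
    have : Normal F L := inferInstance
    refine ⟨(τ.restrictScalars F).restrictNormal L, fun x => ?_⟩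
    exact AlgEquiv.restrictNormal_commutes (τ.restrictScalars F) L x
  set SS : Q2 δ Lv := mapQ (ι : L →+* Lv) S with hSS
  have hSSu : IsUnit SS := hS.map (mapQ (ι : L →+* Lv))
  set β : Q2 δ Lv := rho δ e Q with hβ
  -- the basic facts
  have hT : ∀ τ : Lv ≃ₐ[Fv] Lv, ∃ T : (W k Lv).toAffine.Point, Ker T ∧
      ptW (τ : Lv →+* Lv) Q = Q + T ∧ mapQ (τ : Lv →+* Lv) SS = rho δ e T * SS ∧
      mapQ (τ : Lv →+* Lv) β = β * rho δ e T := by
    intro τ
    obtain ⟨σ, hσ⟩ := hres τ
    have hK' : Ker (ptW (ι : L →+* Lv) (c σ)) := (ker_ptW _ _).2 (hK σ)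
    have hτQ : ptW (τ : Lv →+* Lv) Q = Q + ptW (ι : L →+* Lv) (c σ) := by
      rw [hQ τ σ hσ]; abel
    refine ⟨ptW (ι : L →+* Lv) (c σ), hK', hτQ, ?_, ?_⟩
    · have hcomp : (τ : Lv →+* Lv).comp (ι : L →+* Lv) =
          (ι : L →+* Lv).comp ((σ : L ≃ₐ[F] L) : L →+* L) := by
        ext x
        exact (hσ x).symm
      rw [hSS, mapQ_mapQ, hcomp, ← mapQ_mapQ, h σ, map_mul, ← rho_ptW]
    · rw [hβ, ← rho_ptW, hτQ, rho_add hd _ _ hK']
  have hTu : ∀ T : (W k Lv).toAffine.Point, Ker T → IsUnit (rho δ e T) := by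
    intro T hT
    exact IsUnit.of_pow_eq_one (rho_ker_cube hd T hT) (by norm_num)
  have hzmap : mapQ ((algebraMap Fv Lv).comp (algebraMap F Fv)) z = SS ^ 3 := by
    have hcomp : (algebraMap Fv Lv).comp (algebraMap F Fv) =
        (ι : L →+* Lv).comp (algebraMap F L) := by
      ext x
      show algebraMap Fv Lv (algebraMap F Fv x) = ι (algebraMap F L x)
      rw [ι.commutes, ← IsScalarTower.algebraMap_apply]
    rw [hcomp, ← mapQ_mapQ, hz, map_pow]
  by_cases hβu : IsUnit β
  · left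
    obtain ⟨b, hb⟩ := hβu
    set U : Q2 δ Lv := SS * ((b⁻¹ : (Q2 δ Lv)ˣ) : Q2 δ Lv) with hU
    have hUb : U * β = SS := by
      rw [hU, ← hb, mul_assoc, Units.inv_mul, mul_one]
    have hfix : ∀ τ : Lv ≃ₐ[Fv] Lv, mapQ (τ : Lv →+* Lv) U = U := by
      intro τ
      obtain ⟨T, hTK, -, hTS, hTβ⟩ := hT τ
      have hu : IsUnit (β * rho δ e T) := (hb ▸ b.isUnit : IsUnit β).mul (hTu T hTK)
      have e1 : mapQ (τ : Lv →+* Lv) U * (β * rho δ e T) = U * (β * rho δ e T) := by
        rw [← hTβ, ← map_mul, hUb, hTS, hTβ, ← mul_assoc, hUb, mul_comm]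
      exact hu.mul_left_injective e1
    obtain ⟨u, hu⟩ := fixed_mapQ Fv Lv U hfix
    have hfixB : ∀ τ : Lv ≃ₐ[Fv] Lv, ptW (τ : Lv →+* Lv) (iso hd.ne Q) = iso hd.ne Q := by
      intro τ
      obtain ⟨T, hTK, hTQ, -, -⟩ := hT τ
      rw [← iso_ptW, hTQ, s10_iso_ker hd.ne Q T hTK]
    obtain ⟨P, hP⟩ := fixed_ptW Fv Lv (iso hd.ne Q) hfixB
    refine ⟨P, u, ?_, ?_⟩
    · rw [isUnit_iff_norm]
      intro h0
      have h1 : U.norm = 0 := by rw [← hu, norm_mapQ', h0, map_zero]
      have h2 : IsUnit U := hSSu.mul (Units.isUnit _)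
      exact (isUnit_iff_norm U).1 h2 h1
    · apply s10_mapQ_injective (algebraMap Fv Lv)
      rw [mapQ_mapQ, hzmap, map_mul, map_pow, ← zq_ptW, hP, hu, ← rho_cube hd, ← hβ, ← mul_pow,
        mul_comm β, hUb]
  · right
    have hnorm : β.norm = 0 := by
      by_contra hcon
      exact hβu ((isUnit_iff_norm β).2 hcon)
    have heL : (e : Lv) ≠ 0 := by exact_mod_cast hd.e_ne
    have hkL : (k : Lv) ≠ 0 := by exact_mod_cast hd.ne
    -- the coordinates of `Q`
    obtain ⟨x, y, hxy, hQe⟩ : ∃ x y, ∃ hxy : (W k Lv).toAffine.Nonsingular x y,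
        Q = .some x y hxy := by
      rcases hQc : Q with _ | ⟨x, y, hxy⟩
      · exfalso
        rw [hβ, hQc] at hnorm
        have h1 : (rho δ e (WeierstrassCurve.Affine.Point.zero : (W k Lv).toAffine.Point)) = 1 :=
          rfl
        rw [h1, map_one] at hnorm
        exact one_ne_zero hnorm
      · exact ⟨x, y, hxy, rfl⟩
    have hx : x ≠ 0 := by
      intro hx
      have hKQ : Ker Q := by rw [hQe]; exact hx
      have := rho_ker_norm hd Q hKQ
      rw [← hβ, hnorm] at this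
      exact zero_ne_one this
    have heq : y ^ 2 = x ^ 3 + k := (W_nonsingular hd.ne x y).1 hxy
    have hβe : β = ⟨y / x, -e / x⟩ := by
      rw [hβ, hQe]
      show (if x = 0 then _ else _) = _
      rw [if_neg hx]
    have hde : (-3 : Lv) * k = δ * e ^ 2 := by
      have := hd.eq
      exact_mod_cast congrArg (fun n : ℤ => (n : Lv)) this
    have hy2 : y ^ 2 = δ * e ^ 2 := by
      rw [hβe, s10_norm] at hnorm
      field_simp at hnorm
      linear_combination hnorm
    have hx3 : x ^ 3 = -4 * k := by linear_combination -heq + hy2 - hde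
    have hy0 : y ≠ 0 := by
      intro hy
      rw [hy, ← hde] at hy2
      apply hkL
      have : (3 : Lv) * k = 0 := by linear_combination hy2
      rcases mul_eq_zero.1 this with h3 | h3
      · exact absurd h3 (by norm_num)
      · exact h3
    have hiso : ∃ hns, iso hd.ne Q = .some 0 (3 * y) hns := by
      have h1 : iso hd.ne Q = .some ((x ^ 3 + 4 * k) / x ^ 2) (y * (x ^ 3 - 8 * k) / x ^ 3)
          (iso_nonsing hd.ne hxy hx) := by
        rw [hQe]
        show (if hx : x = 0 then _ else _) = _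
        rw [dif_neg hx]
      have h2 : (x ^ 3 + 4 * k) / x ^ 2 = 0 := by
        rw [hx3]; simp
      have h3 : y * (x ^ 3 - 8 * k) / x ^ 3 = 3 * y := by
        rw [hx3]; field_simp; ring
      have hns := iso_nonsing hd.ne hxy hx
      rw [h2, h3] at hns
      refine ⟨hns, ?_⟩
      rw [h1, WeierstrassCurve.Affine.Point.some.injEq]
      exact ⟨h2, h3⟩
    obtain ⟨hns, hiso⟩ := hiso
    have hyfix : ∀ τ : Lv ≃ₐ[Fv] Lv, τ y = y := by
      intro τ
      obtain ⟨T, hTK, hTQ, -, -⟩ := hT τ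
      have h1 : ptW (τ : Lv →+* Lv) (iso hd.ne Q) = iso hd.ne Q := by
        rw [← iso_ptW, hTQ, s10_iso_ker hd.ne Q T hTK]
      rw [hiso] at h1
      simp only [ptW, WeierstrassCurve.Affine.Point.some.injEq] at h1
      have h2 : τ (3 * y) = 3 * y := h1.2
      rw [map_mul, map_ofNat] at h2
      exact mul_left_cancel₀ (by norm_num) h2
    obtain ⟨y0, hy0'⟩ := (InfiniteGalois.mem_range_algebraMap_iff_fixed y).2 hyfix
    have heF : (e : Fv) ≠ 0 := by exact_mod_cast hd.e_ne
    set s : Fv := -y0 / e with hs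
    set s' : Lv := algebraMap Fv Lv s with hs'
    have hys : y = -e * s' := by
      rw [hs', hs, map_div₀, map_neg, hy0', map_intCast]
      field_simp
    have hs'2 : s' * s' = (δ : Lv) := by
      rw [hys] at hy2
      have h1 : (e : Lv) ^ 2 * (s' * s') = e ^ 2 * δ := by linear_combination hy2
      exact mul_left_cancel₀ (pow_ne_zero 2 heL) h1
    have hs2 : s * s = (δ : Fv) := by
      apply (algebraMap Fv Lv).injective
      rw [map_mul, map_intCast]
      exact hs'2
    let ev : Q2 δ Lv →+* Lv := q6_lift (RingHom.id Lv) s' hs'2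
    have hev : ∀ a, ev a = a.re + a.im * s' := fun a => rfl
    have hτev : ∀ (τ : Lv ≃ₐ[Fv] Lv) (a : Q2 δ Lv), τ (ev a) = ev (mapQ (τ : Lv →+* Lv) a) := by
      intro τ a
      rw [hev, hev, map_add, map_mul, hs', τ.commutes]
      rfl
    have hevβ : ev β = 2 * y / x := by
      rw [hev, hβe]
      show y / x + -e / x * s' = 2 * y / x
      rw [hys]
      field_simp
      ring
    have hevβ0 : ev β ≠ 0 := by
      rw [hevβ]
      exact div_ne_zero (mul_ne_zero two_ne_zero hy0) hx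
    have hevS0 : ev SS ≠ 0 := (hSSu.map ev).ne_zero
    have hgfix : ∀ τ : Lv ≃ₐ[Fv] Lv, τ (ev SS / ev β) = ev SS / ev β := by
      intro τ
      obtain ⟨T, hTK, -, hTS, hTβ⟩ := hT τ
      have h1 : ev (rho δ e T) ≠ 0 := ((hTu T hTK).map ev).ne_zero
      rw [map_div₀, hτev, hτev, hTS, hTβ, map_mul, map_mul]
      field_simp
    obtain ⟨g1, hg1⟩ := (InfiniteGalois.mem_range_algebraMap_iff_fixed _).2 hgfix
    have hg10 : g1 ≠ 0 := by
      intro h0
      rw [h0, map_zero] at hg1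
      exact (div_ne_zero hevS0 hevβ0) hg1.symm
    refine ⟨s, -g1, hs2, neg_ne_zero.2 hg10, ?_⟩
    apply (algebraMap Fv Lv).injective
    have h1 : algebraMap Fv Lv (q6_lift (algebraMap F Fv) s hs2 z) = ev SS ^ 3 := by
      rw [← map_pow, ← hzmap, hev, s10_lift_apply, map_add, map_mul]
      rfl
    have h2 : ev SS ^ 3 = algebraMap Fv Lv g1 ^ 3 * (-6 * e * s') := by
      have h3 : ev SS = algebraMap Fv Lv g1 * ev β := by
        rw [hg1]; field_simp
      rw [h3, mul_pow, ← map_pow ev β, hβ, rho_cube hd, hiso]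
      congr 1
      show (3 * y) + (-((3 * e : ℤ) : Lv)) * s' = _
      rw [hys]
      push_cast
      ring
    rw [h1, h2]
    simp only [map_mul, map_pow, map_neg, map_intCast, map_ofNat]
    rw [← hs']
    ring

end SB3
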