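import Pool.Agent.MP_9ab903_nt.S3.S6
import Pool.Agent.MP_9ab903_nt.S3.S9

set_option autoImplicit false

open NumberField IsDedekindDomain CM27 BS3
open scoped Classical

namespace SB3

/-! ## [SB3-S11] a trivial class comes from a coboundary (file S11.lean; uses S5, S6, S9) -/

theorem trivial_of_cube {k δ e : ℤ} (hd : Dat k δ e) (F L : Type) [Field F] [CharZero F] [Field L]
    [Algebra F L] [IsAlgClosure F L] (hω : ∀ u : F, u ^ 3 = 1 → u = 1)
    (c : (L ≃ₐ[F] L) → (W k L).toAffine.Point) (hK : ∀ σ, Ker (c σ)) (S : Q2 δ L) (hS : IsUnit S)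
    (h : ∀ σ : L ≃ₐ[F] L, mapQ (σ : L →+* L) S = rho δ e (c σ) * S) (t : Q2 δ F)
    (ht : mapQ (algebraMap F L) t ^ 3 = S ^ 3) :
    ∃ T : (W k L).toAffine.Point, ∀ σ : L ≃ₐ[F] L, c σ = ptW (σ : L →+* L) T - T := by
  have : CharZero L := charZero_of_injective_algebraMap (algebraMap F L).injective
  have : IsAlgClosed L := IsAlgClosure.isAlgClosed F
  have : Algebra.IsAlgebraic F L := IsAlgClosure.isAlgebraic
  have : Normal F L := IsAlgClosure.normal F L
  have : IsGalois F L := ⟨⟩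
  have hu : IsUnit (mapQ (algebraMap F L) t) := by
    have h1 : IsUnit (mapQ (algebraMap F L) t ^ 3) := by
      rw [ht]
      exact hS.pow 3
    exact (isUnit_pow_iff three_ne_zero).1 h1
  obtain ⟨w, hw⟩ := hu
  have he : (S * ↑w⁻¹ : Q2 δ L) * mapQ (algebraMap F L) t = S := by
    rw [← hw, mul_assoc, Units.inv_mul, mul_one]
  set a : Q2 δ L := S * ↑w⁻¹ with hadef
  have ha3 : a ^ 3 = 1 := by
    have h3 : a ^ 3 * mapQ (algebraMap F L) t ^ 3 = 1 * mapQ (algebraMap F L) t ^ 3 := by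
      rw [← mul_pow, he, one_mul, ht]
    have hu2 : IsUnit (mapQ (algebraMap F L) t ^ 3) := by
      rw [← hw]
      exact w.isUnit.pow 3
    exact hu2.mul_right_cancel h3
  have hσa : ∀ σ : L ≃ₐ[F] L, mapQ (σ : L →+* L) a = rho δ e (c σ) * a := by
    intro σ
    have h1 : mapQ (σ : L →+* L) (mapQ (algebraMap F L) t) = mapQ (algebraMap F L) t := by
      rw [mapQ_mapQ]
      have h5 : (σ : L →+* L).comp (algebraMap F L) = algebraMap F L := by
        ext x
        simp
      rw [h5]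
    have h4 : mapQ (σ : L →+* L) a * mapQ (algebraMap F L) t =
        rho δ e (c σ) * a * mapQ (algebraMap F L) t := by
      rw [mul_assoc, he, ← h σ]
      conv_lhs => rw [← h1]
      rw [← map_mul, he]
    exact (hw ▸ w.isUnit : IsUnit (mapQ (algebraMap F L) t)).mul_right_cancel h4
  -- the norm
  have hn3 : a.norm ^ 3 = 1 := by
    rw [← map_pow, ha3, map_one]
  have hfix : a.norm ∈ Set.range (algebraMap F L) := by
    rw [InfiniteGalois.mem_range_algebraMap_iff_fixed]
    intro σ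
    have h1 := norm_mapQ' (σ : L →+* L) a
    rw [hσa σ, map_mul QuadraticAlgebra.norm (rho δ e (c σ)) a, rho_ker_norm hd _ (hK σ),
      one_mul] at h1
    exact h1.symm
  obtain ⟨v, hv⟩ := hfix
  have hn : a.norm = 1 := by
    rw [← hv] at hn3 ⊢
    rw [← map_pow] at hn3
    rw [hω v ((algebraMap F L).injective (by rw [hn3, map_one])), map_one]
  obtain ⟨T, hT, hTa⟩ := exists_ker hd a ha3 hn
  refine ⟨T, fun σ => ?_⟩
  rw [eq_sub_iff_add_eq]
  have h1 := hσa σ
  rw [← hTa, ← rho_ptW, ← rho_add hd _ _ hT] at h1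
  exact (rho_ker_inj hd _ _ ((ker_ptW _ _).2 hT) (ker_add hd.ne _ _ (hK σ) hT) h1).symm

end SB3
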