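import Pool.Agent.MP_9ab903_nt.S3.SDefs
import Pool.Agent.MP_9ab903_nt.SB.CO

set_option autoImplicit false

open NumberField IsDedekindDomain CM27 BS3
open scoped Classical

namespace SB3

/-! ## [SB3-S12] the valuations of a class outside `6 δ e` (file S12.lean) -/

theorem val_of_locCond3 {k δ e : ℤ} (hd : Dat k δ e) (F : Type) [Field F] [NumberField F]
    [Fact (NonSq δ F)] (z : Q2 δ F) (hn : ∃ n : F, z.norm = n ^ 3)
    (hz : ∀ v : HeightOneSpectrum (𝓞 F), LocCond3 k e z (v.adicCompletion F))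
    (P : HeightOneSpectrum (𝓞 (Q2 δ F))) (hP : ((6 * δ * e : ℤ) : 𝓞 (Q2 δ F)) ∉ P.asIdeal) :
    ∃ g, P.valuation (Q2 δ F) z = g ^ 3 := by
  obtain ⟨v, -, φ, hφ⟩ := exists_below F (Q2 δ F) P
  set ι : Q2 δ F →+* P.adicCompletion (Q2 δ F) :=
    algebraMap (Q2 δ F) (P.adicCompletion (Q2 δ F)) with hι
  set w : Valuation (P.adicCompletion (Q2 δ F)) (WithZero (Multiplicative ℤ)) := Valued.v with hw
  have hwv : ∀ x : Q2 δ F, w (ι x) = P.valuation (Q2 δ F) x :=
    fun x => HeightOneSpectrum.valuedAdicCompletion_eq_valuation' P x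
  have hint : ∀ n : ℤ, (n : 𝓞 (Q2 δ F)) ∉ P.asIdeal → w (n : P.adicCompletion (Q2 δ F)) = 1 := by
    intro n h
    have h1 := hwv (n : Q2 δ F)
    rw [map_intCast] at h1
    rw [h1]
    exact q6_val_intCast P n h
  have h6 : w ((6 : ℤ) : P.adicCompletion (Q2 δ F)) = 1 := hint 6 fun h => hP (by
    rw [show 6 * δ * e = δ * e * 6 by ring, Int.cast_mul]
    exact Ideal.mul_mem_left _ _ h)
  have hδ : w ((δ : ℤ) : P.adicCompletion (Q2 δ F)) = 1 := hint δ fun h => hP (by
    rw [show 6 * δ * e = 6 * e * δ by ring, Int.cast_mul]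
    exact Ideal.mul_mem_left _ _ h)
  have he : w ((e : ℤ) : P.adicCompletion (Q2 δ F)) = 1 := hint e fun h => hP (by
    rw [Int.cast_mul]
    exact Ideal.mul_mem_left _ _ h)
  set ρ : P.adicCompletion (Q2 δ F) := ι ⟨0, 1⟩ with hρ
  have hρ2 : ρ * ρ = (δ : P.adicCompletion (Q2 δ F)) := by
    have ho : (⟨0, 1⟩ : Q2 δ F) * ⟨0, 1⟩ = ((δ : ℤ) : Q2 δ F) := by
      ext <;> simp
    rw [hρ, ← map_mul, ho, map_intCast]
  have hwρ : w ρ = 1 := by
    have h1 := congrArg w hρ2
    rw [map_mul, hδ, ← sq] at h1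
    exact (pow_eq_one_iff_of_nonneg zero_le (by norm_num)).1 h1
  have hφ' : ∀ a : F, φ (algebraMap F (v.adicCompletion F) a) = ι ⟨a, 0⟩ := fun a => hφ a
  have hdec : ∀ y : Q2 δ F, ι y = φ (algebraMap F (v.adicCompletion F) y.re) +
      φ (algebraMap F (v.adicCompletion F) y.im) * ρ := by
    intro y
    rw [hφ', hφ', hρ, ← map_mul, ← map_add]
    congr 1
    ext <;> simp
  rw [← hwv]
  rcases hz v with ⟨Q, u, hu, hzu⟩ | ⟨s, g, hs, hg, hzg⟩
  · have hev : ι z = q6_lift φ ρ hρ2 (mapQ (algebraMap F (v.adicCompletion F)) z) := hdec z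
    rw [hev, hzu, map_mul, map_pow, map_mul, map_pow]
    suffices h : ∃ g, w (q6_lift φ ρ hρ2 (zq δ (3 * e) Q)) = g ^ 3 by
      obtain ⟨g, hg⟩ := h
      exact ⟨g * w (q6_lift φ ρ hρ2 u), by rw [hg, mul_pow]⟩
    cases Q with
    | zero =>
      refine ⟨1, ?_⟩
      simp [zq]
    | some x y h =>
      have h1 : q6_lift φ ρ hρ2 (zq δ (3 * e) (.some x y h)) =
          φ y - ((3 * e : ℤ) : P.adicCompletion (Q2 δ F)) * ρ := by
        change φ y + φ (-((3 * e : ℤ) : v.adicCompletion F)) * ρ = _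
        rw [map_neg, map_intCast]
        ring
      rw [h1]
      have hne : -27 * k ≠ 0 := mul_ne_zero (by norm_num) hd.ne
      have h2 := (W_equation x y).1 h.1
      have h3 := congrArg φ h2
      rw [map_pow, map_add, map_pow, map_intCast] at h3
      have h4 : ((-27 * k : ℤ) : P.adicCompletion (Q2 δ F)) = 9 * δ * e ^ 2 := by
        have h5 := hd.eq
        have h6 : -27 * k = 9 * δ * e ^ 2 := by linear_combination 9 * h5
        rw [h6]
        push_cast
        ring
      refine q6_cube_val w _ (φ y + ((3 * e : ℤ) : P.adicCompletion (Q2 δ F)) * ρ) (φ x) ?_ ?_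
      · rw [show φ y + ((3 * e : ℤ) : P.adicCompletion (Q2 δ F)) * ρ -
          (φ y - ((3 * e : ℤ) : P.adicCompletion (Q2 δ F)) * ρ) =
          ((6 : ℤ) : P.adicCompletion (Q2 δ F)) * e * ρ by push_cast; ring, map_mul, map_mul,
          h6, he, hwρ]
        simp
      · rw [h4] at h3
        push_cast
        linear_combination h3 - 9 * (e : P.adicCompletion (Q2 δ F)) ^ 2 * hρ2
  · have h1 : φ (algebraMap F (v.adicCompletion F) z.re) +
        φ (algebraMap F (v.adicCompletion F) z.im) * φ s =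
        ((6 : ℤ) : P.adicCompletion (Q2 δ F)) * e * φ s * φ g ^ 3 := by
      have h2 := congrArg φ hzg
      have h3 : q6_lift (algebraMap F (v.adicCompletion F)) s hs z =
        algebraMap F (v.adicCompletion F) z.re + algebraMap F (v.adicCompletion F) z.im * s := rfl
      rw [h3, map_add, map_mul, map_mul, map_pow, map_mul, map_mul, map_intCast, map_ofNat] at h2
      rw [h2]
      push_cast
      ring
    have h2 : φ s * φ s = ρ * ρ := by
      rw [← map_mul, hs, map_intCast, hρ2]
    have hφg : φ g ≠ 0 := (map_ne_zero φ).2 hg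
    rcases mul_self_eq_mul_self_iff.1 h2 with h3 | h3
    · rw [h3] at h1
      rw [hdec z, h1, map_mul, map_mul, map_mul, map_pow, h6, he, hwρ]
      exact ⟨w (φ g), by simp⟩
    · rw [h3] at h1
      obtain ⟨n, hn⟩ := hn
      have h4 : ι z * (((6 : ℤ) : P.adicCompletion (Q2 δ F)) * e * ρ * φ g ^ 3) =
          -(φ (algebraMap F (v.adicCompletion F) n)) ^ 3 := by
        have h5 : φ (algebraMap F (v.adicCompletion F) z.norm) =
            φ (algebraMap F (v.adicCompletion F) n) ^ 3 := by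
          rw [hn, map_pow, map_pow]
        rw [QuadraticAlgebra.norm_def] at h5
        simp only [map_sub, map_mul, map_add, map_pow, map_intCast, map_zero] at h5
        rw [← h5, hdec z]
        linear_combination (φ (algebraMap F (v.adicCompletion F) z.re) +
          φ (algebraMap F (v.adicCompletion F) z.im) * ρ) * h1 +
          (φ (algebraMap F (v.adicCompletion F) z.im)) ^ 2 * hρ2
      have h5 := congrArg w h4
      rw [map_mul, map_mul, map_mul, map_mul, h6, he, hwρ, Valuation.map_neg, map_pow,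
        map_pow] at h5
      simp only [one_mul] at h5
      refine ⟨w (φ (algebraMap F (v.adicCompletion F) n)) / w (φ g), ?_⟩
      have h7 : w (φ g) ≠ 0 := (Valuation.ne_zero_iff w).2 hφg
      rw [div_pow, eq_div_iff (pow_ne_zero 3 h7)]
      exact h5

end SB3
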