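import Pool.Agent.MP_9ab903_nt.S3.SDefs
import Pool.Agent.MP_ae0bd0_nt.B3.Q10

set_option autoImplicit false

open NumberField IsDedekindDomain CM27 BS3
open scoped Classical

namespace SB3

/-! ## [SB3-S13] the local condition at `3` (file S13.lean) -/

theorem s13_mul_cube {K : Type} [Field K] (z1 z2 x1 x2 : K) :
    (⟨z1, z2⟩ : Q2 3 K) * (⟨x1, x2⟩ : Q2 3 K) ^ 3 =
      ⟨z1 * (x1 ^ 3 + 9 * x1 * x2 ^ 2) + 3 * z2 * (3 * x1 ^ 2 * x2 + 3 * x2 ^ 3),
        z1 * (3 * x1 ^ 2 * x2 + 3 * x2 ^ 3) + z2 * (x1 ^ 3 + 9 * x1 * x2 ^ 2)⟩ := by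
  ext
  · simp only [pow_succ, pow_zero, one_mul, QuadraticAlgebra.re_mul, QuadraticAlgebra.im_mul]
    push_cast
    ring
  · simp only [pow_succ, pow_zero, one_mul, QuadraticAlgebra.re_mul, QuadraticAlgebra.im_mul]
    push_cast
    ring

theorem s13_sq {F : Type} [Field F] {w : Valuation F (WithZero (Multiplicative ℤ))} {y : F} {n : ℤ}
    (h : q10_eq w (y ^ 2) n) : ∃ m, n = 2 * m ∧ q10_eq w y m := by
  have hy : y ≠ 0 := by
    rintro rfl
    unfold q10_eq at h
    rw [zero_pow two_ne_zero, map_zero] at h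
    exact WithZero.exp_ne_zero h.symm
  obtain ⟨m, hm⟩ := q10_exists (w := w) hy
  refine ⟨m, ?_, hm⟩
  have h1 := hm.mul hm
  rw [← sq] at h1
  have := h.unique h1
  omega

theorem s13_cube_eq {F : Type} [Field F] {w : Valuation F (WithZero (Multiplicative ℤ))} {x : F}
    {n : ℤ} (h : q10_eq w x n) : q10_eq w (x ^ 3) (3 * n) := by
  have := (h.mul h).mul h
  rw [← sq, ← pow_succ] at this
  have e : n + n + n = 3 * n := by ring
  rwa [e] at this

theorem s13_zpow {F : Type} [Field F] {w : Valuation F (WithZero (Multiplicative ℤ))} {x : F}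
    (h : q10_eq w x 1) (j : ℤ) : q10_eq w (x ^ j) j := by
  unfold q10_eq at *
  rw [map_zpow₀, h, ← WithZero.exp_zsmul]
  congr 1
  simp

/-- images of points -/
theorem inU3_zq {C : Type} [Field C] [CharZero C] (w : Valuation C (WithZero (Multiplicative ℤ)))
    (h3 : w 3 = WithZero.exp (-1)) (hns : ∀ x : C, ¬ w (x ^ 2 + 1) < 1) (r : ℤ)
    (hr : r ^ 2 % 9 = 7) (P : (W (-27 * -r ^ 2) C).toAffine.Point) :
    ∃ (u : Q2 3 C) (a b : C), IsUnit u ∧ zq 3 (3 * r) P * u ^ 3 = ⟨a, b⟩ ∧ w a = 1 ∧ w b < 1 := by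
  have h3' : q10_eq w (3 : C) 1 := h3
  have hone : ∀ {a : C}, q10_eq w a 0 → w a = 1 := by
    intro a ha
    unfold q10_eq at ha
    rw [ha, neg_zero, WithZero.exp_zero]
  have hlt : ∀ {a : C} {n : ℤ}, 1 ≤ n → q10_ge w a n → w a < 1 := by
    intro a n hn ha
    refine lt_of_le_of_lt ha ?_
    rw [← WithZero.exp_zero, WithZero.exp_lt_exp]
    omega
  have hr3 : ¬ (3 : ℤ) ∣ r := by
    rintro ⟨t, rfl⟩
    have : (3 * t) ^ 2 % 9 = 0 := by
      have e : (3 * t) ^ 2 = 9 * t ^ 2 := by ring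
      rw [e]; omega
    omega
  have hru : q10_eq w (r : C) 0 := q10_int_unit h3' r hr3
  rcases P with _ | ⟨X, Y, hXY⟩
  · refine ⟨1, 1, 0, isUnit_one, ?_, map_one w, ?_⟩
    · change (1 : Q2 3 C) * 1 ^ 3 = _
      rw [one_pow, mul_one]
      ext
      · rw [QuadraticAlgebra.re_one]
      · rw [QuadraticAlgebra.im_one]
    · rw [map_zero]; exact zero_lt_one
  · have hE : Y ^ 2 = X ^ 3 + 27 * (r : C) ^ 2 := by
      have h1 := (W_equation X Y).1 hXY.1
      push_cast at h1
      linear_combination h1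
    have h27 : q10_eq w (27 * (r : C) ^ 2) 3 := by
      have h1 := ((h3'.mul h3').mul h3').mul (hru.mul hru)
      have e : (3 : C) * 3 * 3 * (r * r) = 27 * (r : C) ^ 2 := by ring
      rw [e] at h1
      exact h1
    have hD : q10_ge w X 2 → False := by
      intro hX
      have h1 : q10_ge w (X ^ 3) 4 := by
        have := (hX.mul hX).mul hX
        rw [← sq, ← pow_succ] at this
        exact this.mono (by omega)
      have h2 := h27.add h1
      rw [add_comm, ← hE] at h2
      obtain ⟨m, hm, -⟩ := s13_sq h2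
      omega
    have hX0 : X ≠ 0 := by
      rintro rfl
      exact hD q10_ge_zero
    obtain ⟨n, hn⟩ := q10_exists (w := w) hX0
    have hn3 := s13_cube_eq hn
    rcases lt_trichotomy n 0 with hneg | h0 | hpos
    · -- negative order
      have h2 := hn3.add (h27.ge.mono (m := 3 * n + 1) (by omega))
      rw [← hE] at h2
      obtain ⟨m, hm, hY⟩ := s13_sq h2
      obtain ⟨j, rfl⟩ : ∃ j, n = -2 * j := ⟨m - 2 * n + 0, by omega⟩
      have hmj : m = -3 * j := by omega
      subst hmj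
      have h30 : (3 : C) ≠ 0 := by norm_num
      have hj := s13_zpow h3' j
      refine ⟨⟨3 ^ j, 0⟩, Y * (3 ^ j) ^ 3, -(3 * r) * (3 ^ j) ^ 3, ?_, ?_, ?_, ?_⟩
      · rw [QuadraticAlgebra.isUnit_iff_norm_isUnit, isUnit_iff_ne_zero,
          QuadraticAlgebra.norm_def]
        simp only [mul_zero, add_zero, sub_zero]
        exact mul_ne_zero (zpow_ne_zero _ h30) (zpow_ne_zero _ h30)
      · change (⟨Y, -((3 * r : ℤ) : C)⟩ : Q2 3 C) * _ = _
        rw [s13_mul_cube]
        ext
        · simp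
        · simp
      · apply hone
        have := hY.mul (s13_cube_eq hj)
        have e : -3 * j + 3 * j = 0 := by ring
        rwa [e] at this
      · have := ((h3'.mul hru).neg.mul (s13_cube_eq hj)).ge
        exact hlt (by omega) this
    · -- order zero
      subst h0
      have h2 := hn3.add (h27.ge.mono (m := 3 * 0 + 1) (by omega))
      rw [← hE] at h2
      obtain ⟨m, hm, hY⟩ := s13_sq h2
      have hm0 : m = 0 := by omega
      subst hm0
      refine ⟨1, Y, -(3 * r), isUnit_one, ?_, hone hY, ?_⟩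
      · change (⟨Y, -((3 * r : ℤ) : C)⟩ : Q2 3 C) * 1 ^ 3 = _
        rw [one_pow, mul_one]
        push_cast
        rfl
      · exact hlt (le_refl 1) ((h3'.mul hru).neg.ge.mono (by omega))
    · exfalso
      rcases le_or_gt 2 n with h2n | h2n
      · exact hD (hn.ge.mono h2n)
      · have hn1 : n = 1 := by omega
        subst hn1
        have h30 : (3 : C) ≠ 0 := by norm_num
        obtain ⟨X1, rfl⟩ : ∃ X1, X = 3 * X1 := ⟨X / 3, by field_simp⟩
        have hX1 : q10_eq w X1 0 := by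
          have hX10 : X1 ≠ 0 := by rintro rfl; simp at hX0
          obtain ⟨k, hk⟩ := q10_exists (w := w) hX10
          have := hn.unique (h3'.mul hk)
          have hk0 : k = 0 := by omega
          rw [← hk0]; exact hk
        have hS0 : q10_ge w (X1 ^ 3 + (r : C) ^ 2) 0 := by
          have a1 := (s13_cube_eq hX1).ge
          have a2 : q10_ge w ((r : C) ^ 2) 0 := by
            have := (hru.mul hru).ge
            rwa [← sq] at this
          exact a1.add a2
        have hE2 : Y ^ 2 = 27 * (X1 ^ 3 + (r : C) ^ 2) := by rw [hE]; ring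
        have h27' : q10_eq w (27 : C) 3 := by
          have h1 := (h3'.mul h3').mul h3'
          have e : (3 : C) * 3 * 3 = 27 := by norm_num
          rw [e] at h1
          exact h1
        have hS1 : q10_ge w (X1 ^ 3 + (r : C) ^ 2) 1 := by
          by_cases hS : X1 ^ 3 + (r : C) ^ 2 = 0
          · rw [hS]; exact q10_ge_zero
          · obtain ⟨k, hk⟩ := q10_exists (w := w) hS
            have h1 := h27'.mul hk
            rw [← hE2] at h1
            obtain ⟨m, hm, -⟩ := s13_sq h1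
            have h2 := hk.le hS0
            exact hk.ge.mono (by omega)
        have hC1 : q10_ge w (X1 ^ 3 - ((-1 : ℤ) : C)) 1 := by
          have e : X1 ^ 3 - ((-1 : ℤ) : C) = (X1 ^ 3 + (r : C) ^ 2) - ((r ^ 2 - 1 : ℤ) : C) := by
            push_cast; ring
          rw [e]
          refine hS1.sub ?_
          obtain ⟨a, ha⟩ : (3 : ℤ) ∣ r ^ 2 - 1 := by omega
          rw [ha]
          push_cast
          have := h3'.ge.mul (q10_int w a)
          simpa using this
        have hC2 := q10_cube h3' hX1.ge (-1) (Or.inr rfl) hC1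
        -- `Y = 9 Y1`
        obtain ⟨Y1, rfl⟩ : ∃ Y1, Y = 9 * Y1 := ⟨Y / 9, by field_simp⟩
        have hY1 : 3 * (Y1 ^ 2 + 1) = (X1 ^ 3 - ((-1 : ℤ) : C)) + ((r ^ 2 + 2 : ℤ) : C) := by
          push_cast
          have : (27 : C) * (3 * (Y1 ^ 2 + 1)) = 27 * (X1 ^ 3 - -1 + (r ^ 2 + 2)) := by
            linear_combination hE2
          exact mul_left_cancel₀ (by norm_num) this
        have h9 : q10_ge w (((r ^ 2 + 2 : ℤ) : C)) 2 := by
          obtain ⟨a, ha⟩ : (9 : ℤ) ∣ r ^ 2 + 2 := by omega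
          rw [ha]
          push_cast
          have := (h3'.ge.mul h3'.ge).mul (q10_int w a)
          have e : (3 : C) * 3 = 9 := by norm_num
          rw [e] at this
          simpa using this
        have hY2 : q10_ge w (3 * (Y1 ^ 2 + 1)) 2 := by
          rw [hY1]; exact hC2.add h9
        apply hns Y1
        by_cases hz : Y1 ^ 2 + 1 = 0
        · rw [hz, map_zero]; exact zero_lt_one
        · obtain ⟨k, hk⟩ := q10_exists (w := w) hz
          have := (h3'.mul hk).le hY2
          exact hlt (show (1 : ℤ) ≤ k by omega) hk.ge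

/-- approximation -/
theorem inU3_of_locCond3 (F : Type) [Field F] [NumberField F] (r : ℤ) (hr : r ^ 2 % 9 = 7)
    (z : Q2 3 F) (v : HeightOneSpectrum (𝓞 F)) (h3 : (3 : 𝓞 F) ∈ v.asIdeal)
    (h9 : (3 : 𝓞 F) ∉ v.asIdeal ^ 2)
    (hns : ∀ x : v.adicCompletion F, ¬ Valued.v (x ^ 2 + 1) < 1)
    (h : LocCond3 (-r ^ 2) r z (v.adicCompletion F)) : InU3 (v.valuation F) z := by
  have hval : ∀ k : F, Valued.v (algebraMap F (v.adicCompletion F) k) = v.valuation F k :=
    fun k => HeightOneSpectrum.valuedAdicCompletion_eq_valuation' v k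
  have hv3 : v.valuation F 3 = WithZero.exp (-1) := q10_v3 v h3 h9
  have hw3 : Valued.v (3 : v.adicCompletion F) = WithZero.exp (-1) := by
    rw [← hv3, ← hval, map_ofNat (algebraMap F (v.adicCompletion F)) 3]
  have hch : CharZero (v.adicCompletion F) :=
    charZero_of_injective_algebraMap (algebraMap F (v.adicCompletion F)).injective
  rcases h with ⟨P, u, ⟨u, rfl⟩, hz⟩ | ⟨s, g, hs, -, -⟩
  · obtain ⟨u', a, b, hu', h1, ha, hb⟩ := inU3_zq
      (Valued.v : Valuation (v.adicCompletion F) (WithZero (Multiplicative ℤ))) hw3 hns r hr P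
    obtain ⟨⟨t1, t2⟩, ht⟩ : ∃ t : Q2 3 (v.adicCompletion F),
      (↑u⁻¹ : Q2 3 (v.adicCompletion F)) * u' = t := ⟨_, rfl⟩
    obtain ⟨z1, z2⟩ := z
    have h4 : mapQ (algebraMap F (v.adicCompletion F)) (⟨z1, z2⟩ : Q2 3 F) *
        (⟨t1, t2⟩ : Q2 3 (v.adicCompletion F)) ^ 3 = ⟨a, b⟩ := by
      rw [← h1, hz, ← ht, mul_pow]
      have h5 : (↑u : Q2 3 (v.adicCompletion F)) * ↑u⁻¹ = 1 := u.mul_inv
      linear_combination (zq 3 (3 * r) P * u' ^ 3 * ((↑u * ↑u⁻¹) ^ 2 + ↑u * ↑u⁻¹ + 1)) * h5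
    rw [mapQ_apply, s13_mul_cube] at h4
    have e1 := congrArg QuadraticAlgebra.re h4
    have e2 := congrArg QuadraticAlgebra.im h4
    simp only at e1 e2
    have hlt : IsOpen {x : v.adicCompletion F | Valued.v x < 1} := by
      have := Valued.isOpen_ball (v.adicCompletion F) 1
      simpa only [Valuation.restrict_lt_one_iff] using this
    set i := algebraMap F (v.adicCompletion F) with hi
    have hopen : IsOpen {x : v.adicCompletion F × v.adicCompletion F |
        Valued.v (i z1 * (x.1 ^ 3 + 9 * x.1 * x.2 ^ 2) +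
          3 * i z2 * (3 * x.1 ^ 2 * x.2 + 3 * x.2 ^ 3) - a) < 1 ∧
        Valued.v (i z1 * (3 * x.1 ^ 2 * x.2 + 3 * x.2 ^ 3) +
          i z2 * (x.1 ^ 3 + 9 * x.1 * x.2 ^ 2)) < 1} := by
      refine IsOpen.inter ?_ ?_
      · exact hlt.preimage (f := fun x : v.adicCompletion F × v.adicCompletion F
          => i z1 * (x.1 ^ 3 + 9 * x.1 * x.2 ^ 2) +
          3 * i z2 * (3 * x.1 ^ 2 * x.2 + 3 * x.2 ^ 3) - a) (by fun_prop)
      · exact hlt.preimage (f := fun x : v.adicCompletion F × v.adicCompletion F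
          => i z1 * (3 * x.1 ^ 2 * x.2 + 3 * x.2 ^ 3) +
          i z2 * (x.1 ^ 3 + 9 * x.1 * x.2 ^ 2)) (by fun_prop)
    have hd : DenseRange (i : F → v.adicCompletion F) :=
      HeightOneSpectrum.denseRange_algebraMap F v
    have hd2 := hd.prodMap hd
    obtain ⟨⟨x1, x2⟩, hx1, hx2⟩ := hd2.exists_mem_open hopen ⟨(t1, t2), by
      constructor
      · rw [e1, sub_self, map_zero]
        exact zero_lt_one
      · rw [e2]
        exact hb⟩
    have hA : v.valuation F (z1 * (x1 ^ 3 + 9 * x1 * x2 ^ 2) +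
        3 * z2 * (3 * x1 ^ 2 * x2 + 3 * x2 ^ 3)) = 1 := by
      rw [← hval]
      have h6 : Valued.v (i (z1 * (x1 ^ 3 + 9 * x1 * x2 ^ 2) +
        3 * z2 * (3 * x1 ^ 2 * x2 + 3 * x2 ^ 3)) - a) < 1 := by
        simpa only [map_add, map_mul, map_pow, map_sub, map_one, map_ofNat, Prod.map_apply]
          using hx1
      have h7 : i (z1 * (x1 ^ 3 + 9 * x1 * x2 ^ 2) +
        3 * z2 * (3 * x1 ^ 2 * x2 + 3 * x2 ^ 3)) = a + (i (z1 * (x1 ^ 3 + 9 * x1 * x2 ^ 2) +
        3 * z2 * (3 * x1 ^ 2 * x2 + 3 * x2 ^ 3)) - a) := by ring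
      rw [h7, Valuation.map_add_eq_of_lt_left _ (by rw [ha]; exact h6)]
      exact ha
    have hB : v.valuation F (z1 * (3 * x1 ^ 2 * x2 + 3 * x2 ^ 3) +
        z2 * (x1 ^ 3 + 9 * x1 * x2 ^ 2)) < 1 := by
      rw [← hval]
      simpa only [map_add, map_mul, map_pow, map_sub, map_one, map_ofNat, Prod.map_apply]
        using hx2
    refine ⟨⟨x1, x2⟩, _, _, ?_, s13_mul_cube z1 z2 x1 x2, hA, hB⟩
    have hu : IsUnit ((⟨z1, z2⟩ : Q2 3 F) * (⟨x1, x2⟩ : Q2 3 F) ^ 3) := by
      rw [QuadraticAlgebra.isUnit_iff_norm_isUnit, isUnit_iff_ne_zero, s13_mul_cube,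
        QuadraticAlgebra.norm_def]
      simp only [zero_mul, add_zero]
      set A := z1 * (x1 ^ 3 + 9 * x1 * x2 ^ 2) + 3 * z2 * (3 * x1 ^ 2 * x2 + 3 * x2 ^ 3) with hAd
      set B := z1 * (3 * x1 ^ 2 * x2 + 3 * x2 ^ 3) + z2 * (x1 ^ 3 + 9 * x1 * x2 ^ 2) with hBd
      intro h0
      have h8 : A * A = ((3 : ℤ) : F) * B * B := by linear_combination h0
      have h9 := congrArg (v.valuation F) h8
      rw [map_mul, map_mul, map_mul, hA, one_mul, Int.cast_ofNat, hv3] at h9
      have h10 : WithZero.exp (-1 : ℤ) * v.valuation F B * v.valuation F B < 1 := by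
        have a1 : WithZero.exp (-1 : ℤ) ≤ 1 := by
          rw [← WithZero.exp_zero, WithZero.exp_le_exp]; omega
        calc WithZero.exp (-1 : ℤ) * v.valuation F B * v.valuation F B
            ≤ 1 * v.valuation F B * v.valuation F B := by gcongr
          _ = v.valuation F B * v.valuation F B := by rw [one_mul]
          _ < 1 := mul_lt_one_of_nonneg_of_lt_one_left zero_le hB hB.le
      rw [← h9] at h10
      exact lt_irrefl _ h10
    exact isUnit_of_mul_isUnit_right hu |> fun h => (isUnit_pow_iff (by norm_num)).1 h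
  · exfalso
    have h1 : q10_eq (Valued.v : Valuation (v.adicCompletion F) (WithZero (Multiplicative ℤ)))
        (s ^ 2) 1 := by
      rw [sq, hs, Int.cast_ofNat]
      exact hw3
    obtain ⟨m, hm, -⟩ := s13_sq h1
    omega

end SB3
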