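import Pool.Agent.MP_9ab903_nt.S3.SDefs

set_option autoImplicit false

open Polynomial NumberField IsDedekindDomain CM27 BS3
open scoped Classical

namespace SB3

/-! ## [SB3-S4] the isogeny is surjective over algebraically closed fields (file S4.lean) -/

theorem s4_iso_some {k : ℤ} (hk : k ≠ 0) {K : Type} [Field K] [CharZero K] {x y X Y : K}
    (h : (W k K).toAffine.Nonsingular x y) (hx : x ≠ 0)
    (h' : (W (-27 * k) K).toAffine.Nonsingular X Y)
    (hX : (x ^ 3 + 4 * k) / x ^ 2 = X) (hY : y * (x ^ 3 - 8 * k) / x ^ 3 = Y) :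
    iso hk (.some x y h) = .some X Y h' := by
  subst hX hY
  simp only [iso]
  rw [dif_neg hx]

theorem iso_surj {k : ℤ} (hk : k ≠ 0) {K : Type} [Field K] [CharZero K] [IsAlgClosed K]
    (Q : (W (-27 * k) K).toAffine.Point) : ∃ P : (W k K).toAffine.Point, iso hk P = Q := by
  rcases Q with _ | ⟨X0, Y0, hQ⟩
  · exact ⟨.zero, rfl⟩
  · have hQ1 := (W_nonsingular (mul_ne_zero (by norm_num) hk) X0 Y0).1 hQ
    push_cast at hQ1
    have hkK : (k : K) ≠ 0 := Int.cast_ne_zero.2 hk
    obtain ⟨x, hx⟩ : ∃ x : K, x ^ 3 - X0 * x ^ 2 + 4 * k = 0 := by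
      have hdeg : (X ^ 3 - C X0 * X ^ 2 + C (4 * (k : K)) : K[X]).natDegree = 3 := by
        compute_degree!
      obtain ⟨r, hr⟩ := IsAlgClosed.exists_root (X ^ 3 - C X0 * X ^ 2 + C (4 * (k : K)) : K[X])
        (by
          intro h
          rw [Polynomial.degree_eq_natDegree (by
            intro h0
            rw [h0, natDegree_zero] at hdeg
            norm_num at hdeg), hdeg] at h
          norm_num at h)
      refine ⟨r, ?_⟩
      simpa [IsRoot.def] using hr
    have hx0 : x ≠ 0 := by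
      rintro rfl
      apply hkK
      have h4 : (4 : K) ≠ 0 := by norm_num
      apply mul_left_cancel₀ h4
      linear_combination hx
    have hX0 : (x ^ 3 + 4 * k) / x ^ 2 = X0 := by
      rw [div_eq_iff (pow_ne_zero 2 hx0)]
      linear_combination hx
    by_cases h8 : x ^ 3 - 8 * (k : K) = 0
    · have hY0 : Y0 = 0 := by
        have h1 : x ^ 6 * (X0 ^ 3 - 27 * k) = 0 := by
          have h2 : x ^ 6 * X0 ^ 3 = (x ^ 3 + 4 * k) ^ 3 := by
            have h3 : X0 * x ^ 2 = x ^ 3 + 4 * k := by linear_combination -hx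
            rw [← h3]
            ring
          linear_combination h2 + (x ^ 3 - 8 * k) * (x ^ 3 + k) * h8
        have h2 : X0 ^ 3 - 27 * (k : K) = 0 := (mul_eq_zero.1 h1).resolve_left (pow_ne_zero 6 hx0)
        have h3 : Y0 ^ 2 = 0 := by linear_combination hQ1 + h2
        exact pow_eq_zero_iff (two_ne_zero) |>.1 h3
      obtain ⟨y, hy⟩ := IsAlgClosed.exists_pow_nat_eq (x ^ 3 + (k : K)) (n := 2) (by norm_num)
      refine ⟨.some x y ((W_nonsingular hk x y).2 hy), ?_⟩
      refine s4_iso_some hk _ hx0 _ hX0 ?_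
      rw [h8, hY0, mul_zero, zero_div]
    · have hy : (Y0 * x ^ 3 / (x ^ 3 - 8 * k)) ^ 2 = x ^ 3 + k := by
        rw [div_pow, div_eq_iff (pow_ne_zero 2 h8)]
        have h2 : x ^ 6 * X0 ^ 3 = (x ^ 3 + 4 * k) ^ 3 := by
          have h3 : X0 * x ^ 2 = x ^ 3 + 4 * k := by linear_combination -hx
          rw [← h3]
          ring
        linear_combination x ^ 6 * hQ1 + h2
      refine ⟨.some x _ ((W_nonsingular hk x _).2 hy), ?_⟩
      refine s4_iso_some hk _ hx0 _ hX0 ?_
      have h3 : x ^ 3 ≠ 0 := pow_ne_zero 3 hx0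
      rw [div_mul_cancel₀ _ h8, mul_div_assoc, div_self h3, mul_one]

end SB3
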