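import Pool.Agent.MP_9ab903_nt.S3.SDefs
import Pool.Agent.MP_ae0bd0_nt.CM.C3

set_option autoImplicit false

open NumberField IsDedekindDomain CM27 BS3
open scoped Classical

namespace SB3

/-! ## [SB3-S7] `-1` is not a square in the residue fields of odd degree (file S7.lean) -/

theorem s7_mod4 (p f : ℕ) (hp4 : p % 4 = 3) (hf : Odd f) : p ^ f % 4 = 3 := by
  obtain ⟨g, rfl⟩ := hf
  have h1 : p ^ 2 % 4 = 1 := by rw [Nat.pow_mod, hp4]
  rw [pow_succ, pow_mul, Nat.mul_mod, Nat.pow_mod, h1, hp4]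
  simp

theorem s7_card (F : Type) [Field F] [NumberField F] [IsGalois ℚ F] (n : ℕ)
    (hF : Module.finrank ℚ F = 3 ^ n) (p : ℕ) (hp : p.Prime)
    (v : HeightOneSpectrum (𝓞 F)) (hv : (p : 𝓞 F) ∈ v.asIdeal) :
    ∃ f : ℕ, Odd f ∧ Nat.card (𝓞 F ⧸ v.asIdeal) = p ^ f := by
  have hpf : Fact p.Prime := ⟨hp⟩
  have hp0 : (Ideal.span {(p : ℤ)}) ≠ ⊥ := by
    simp [hp.ne_zero]
  have hprime : (Ideal.span {(p : ℤ)}).IsPrime := by
    rw [Ideal.span_singleton_prime (by exact_mod_cast hp.ne_zero)]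
    exact Nat.prime_iff_prime_int.mp hp
  have hmax : (Ideal.span {(p : ℤ)}).IsMaximal := hprime.isMaximal hp0
  have hvpr : v.asIdeal.IsPrime := v.isPrime
  have hlies : v.asIdeal.LiesOver (Ideal.span {(p : ℤ)}) := by
    constructor
    refine hmax.eq_of_le ?_ ?_
    · exact Ideal.IsPrime.ne_top inferInstance
    · rw [Ideal.span_singleton_le_iff_mem, Ideal.mem_comap]
      simpa using hv
  have hg1 := Ideal.ncard_primesOver_mul_ramificationIdxIn_mul_inertiaDegIn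
    (Ideal.span {(p : ℤ)}) (𝓞 F) Gal(F/ℚ)
  rw [IsGalois.card_aut_eq_finrank, hF] at hg1
  refine ⟨(Ideal.span {(p : ℤ)}).inertiaDegIn (𝓞 F), ?_, ?_⟩
  · have hdvd : (Ideal.span {(p : ℤ)}).inertiaDegIn (𝓞 F) ∣ 3 ^ n := by
      rw [← hg1]
      exact dvd_mul_of_dvd_right (dvd_mul_left _ _) _
    obtain ⟨j, _, hj⟩ := (Nat.dvd_prime_pow Nat.prime_three).1 hdvd
    rw [hj]
    exact Odd.pow (by decide)
  · rw [Ideal.inertiaDegIn_eq_inertiaDeg (Ideal.span {(p : ℤ)}) v.asIdeal Gal(F/ℚ)]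
    rw [Ideal.pow_inertiaDeg p v.asIdeal, Ideal.absNorm_apply, Submodule.cardQuot_apply]

theorem neg_one_nonsq (F : Type) [Field F] [NumberField F] [IsGalois ℚ F] (n : ℕ)
    (hF : Module.finrank ℚ F = 3 ^ n) (p : ℕ) (hp : p.Prime) (hp4 : p % 4 = 3)
    (v : HeightOneSpectrum (𝓞 F)) (hv : (p : 𝓞 F) ∈ v.asIdeal) (x : 𝓞 F) :
    x ^ 2 + 1 ∉ v.asIdeal := by
  intro hx
  obtain ⟨f, hf, hcard⟩ := s7_card F n hF p hp v hv
  have hvm : v.asIdeal.IsMaximal := v.isMaximal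
  let _ : Field (𝓞 F ⧸ v.asIdeal) := Ideal.Quotient.field v.asIdeal
  have hfin : Finite (𝓞 F ⧸ v.asIdeal) := Ring.HasFiniteQuotients.finiteQuotient v.ne_bot
  let _ : Fintype (𝓞 F ⧸ v.asIdeal) := Fintype.ofFinite _
  have h1 : IsSquare (-1 : 𝓞 F ⧸ v.asIdeal) := by
    refine ⟨Ideal.Quotient.mk v.asIdeal x, ?_⟩
    have h2 := Ideal.Quotient.eq_zero_iff_mem.2 hx
    rw [map_add, map_pow, map_one] at h2
    linear_combination -h2
  rw [FiniteField.isSquare_neg_one_iff, ← Nat.card_eq_fintype_card, hcard] at h1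
  exact h1 (s7_mod4 p f hp4 hf)

/-- The same statement in the completion. -/
theorem neg_one_nonsq_completion (F : Type) [Field F] [NumberField F] [IsGalois ℚ F] (n : ℕ)
    (hF : Module.finrank ℚ F = 3 ^ n) (p : ℕ) (hp : p.Prime) (hp4 : p % 4 = 3)
    (v : HeightOneSpectrum (𝓞 F)) (hv : (p : 𝓞 F) ∈ v.asIdeal) (x : v.adicCompletion F) :
    ¬ Valued.v (x ^ 2 + 1) < 1 := by
  intro hx
  have hx1 : Valued.v x ≤ 1 := by
    by_contra hcon
    rw [not_le] at hcon
    have h2 : Valued.v (1 : v.adicCompletion F) < Valued.v (x ^ 2) := by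
      rw [map_one, map_pow]
      exact one_lt_pow₀ hcon two_ne_zero
    have h3 := Valuation.map_add_eq_of_lt_left Valued.v h2
    rw [h3, map_pow] at hx
    exact absurd hx (not_lt.2 (one_lt_pow₀ hcon two_ne_zero).le)
  obtain ⟨r, hr⟩ := c3_approx F v (⟨x, hx1⟩ : v.adicCompletionIntegers F)
  apply neg_one_nonsq F n hF p hp hp4 v hv r
  have hr' : Valued.v (x - ((algebraMap (𝓞 F) (v.adicCompletionIntegers F) r :
      v.adicCompletionIntegers F) : v.adicCompletion F)) < 1 := hr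
  set R : v.adicCompletion F := ((algebraMap (𝓞 F) (v.adicCompletionIntegers F) r :
      v.adicCompletionIntegers F) : v.adicCompletion F) with hR
  have hR1 : Valued.v R ≤ 1 := (algebraMap (𝓞 F) (v.adicCompletionIntegers F) r).2
  have h4 : Valued.v (R ^ 2 + 1) < 1 := by
    have h5 : R ^ 2 + 1 = (x ^ 2 + 1) - (x - R) * (x + R) := by ring
    rw [h5]
    refine lt_of_le_of_lt (Valuation.map_sub _ _ _) (max_lt hx ?_)
    rw [map_mul]
    have h6 : Valued.v (x + R) ≤ 1 := (Valuation.map_add _ _ _).trans (max_le hx1 hR1)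
    exact mul_lt_one_of_lt_of_le hr' h6
  have h7 : R ^ 2 + 1 = ((algebraMap (𝓞 F) (v.adicCompletionIntegers F) (r ^ 2 + 1) :
      v.adicCompletionIntegers F) : v.adicCompletion F) := by
    rw [hR, map_add, map_pow, map_one]
    rfl
  rw [h7, c3_val, HeightOneSpectrum.intValuation_lt_one_iff_mem] at h4
  exact h4

end SB3
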