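import Pool.Agent.MP_9ab903_nt.S3.S5
import Pool.Agent.MP_9ab903_nt.S3.S6

set_option autoImplicit false

open NumberField IsDedekindDomain CM27 BS3
open scoped Classical

namespace SB3

/-! ## [SB3-S8] Hilbert 90 (file S8.lean; uses S5, S6) -/

section S8Aux

open Topology

theorem s8_ptW_zero {k : ℤ} {K L : Type} [Field K] [Field L] (f : K →+* L) :
    ptW f (0 : (W k K).toAffine.Point) = 0 := rfl

variable {k δ e : ℤ} {F L : Type} [Field F] [Field L] [Algebra F L]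

theorem s8_one {c : (L ≃ₐ[F] L) → (W k L).toAffine.Point} (hc : Coc3 k F L c) : c 1 = 0 := by
  have h := hc.crossed 1 1
  rw [mul_one] at h
  have h1 : ((1 : L ≃ₐ[F] L) : L →+* L) = RingHom.id L := rfl
  rw [h1, ptW_id] at h
  exact (left_eq_add.1 h)

theorem s8_exists_M {c : (L ≃ₐ[F] L) → (W k L).toAffine.Point} (hc : Coc3 k F L c) :
    ∃ M : IntermediateField F L, FiniteDimensional F M ∧ ∀ σ ∈ M.fixingSubgroup, c σ = 0 := by
  have hopen : IsOpen {σ | c σ = 0} := hc.loc.isOpen_fiber 0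
  have hmem : {σ | c σ = 0} ∈ 𝓝 (1 : L ≃ₐ[F] L) := hopen.mem_nhds (s8_one hc)
  rw [krullTopology_mem_nhds_one_iff] at hmem
  obtain ⟨M, hM, hs⟩ := hmem
  exact ⟨M, hM, fun σ hσ => hs hσ⟩

/-- the extension of an embedding to an automorphism -/
noncomputable def s8Lift [Normal F L] (M : IntermediateField F L) (j : M →ₐ[F] L) : L ≃ₐ[F] L :=
  AlgEquiv.ofBijective (j.liftNormal L) (AlgHom.normal_bijective F L L _)

theorem s8Lift_apply [Normal F L] (M : IntermediateField F L) (j : M →ₐ[F] L) (x : M) :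
    s8Lift M j (x : L) = j x := by
  have := j.liftNormal_commutes L x
  exact this

theorem s8_congr {c : (L ≃ₐ[F] L) → (W k L).toAffine.Point} (hc : Coc3 k F L c)
    (M : IntermediateField F L) (hM : ∀ σ ∈ M.fixingSubgroup, c σ = 0) (τ τ' : L ≃ₐ[F] L)
    (h : ∀ x ∈ M, τ x = τ' x) : c τ' = c τ := by
  have h1 : τ' = τ * (τ⁻¹ * τ') := by rw [mul_inv_cancel_left]
  have h2 : c (τ⁻¹ * τ') = 0 := by
    apply hM
    rw [IntermediateField.mem_fixingSubgroup_iff]
    intro x hx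
    rw [AlgEquiv.mul_apply, ← h x hx]
    exact AlgEquiv.symm_apply_apply τ x
  rw [h1, hc.crossed, h2, s8_ptW_zero, add_zero]

variable [CharZero L]

theorem s8_A_mul (hd : Dat k δ e) {c : (L ≃ₐ[F] L) → (W k L).toAffine.Point} (hc : Coc3 k F L c)
    (hK : ∀ σ, Ker (c σ)) (σ τ : L ≃ₐ[F] L) :
    rho δ e (c (σ * τ)) = rho δ e (c σ) * mapQ (σ : L →+* L) (rho δ e (c τ)) := by
  rw [hc.crossed, rho_add hd _ _ ((ker_ptW _ _).2 (hK τ)), rho_ptW]

theorem s8_A_map (hd : Dat k δ e) {c : (L ≃ₐ[F] L) → (W k L).toAffine.Point} (hc : Coc3 k F L c)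
    (hK : ∀ σ, Ker (c σ)) (σ τ : L ≃ₐ[F] L) :
    mapQ (σ : L →+* L) (rho δ e (c τ)) = rho δ e (c σ) ^ 2 * rho δ e (c (σ * τ)) := by
  rw [s8_A_mul hd hc hK, ← mul_assoc, ← pow_succ, rho_ker_cube hd _ (hK σ), one_mul]

/-- the Poincare series -/
noncomputable def s8Theta [Normal F L] (δ e : ℤ) (c : (L ≃ₐ[F] L) → (W k L).toAffine.Point)
    (M : IntermediateField F L) [Fintype (M →ₐ[F] L)] (a : M) : Q2 δ L :=
  ∑ j : M →ₐ[F] L, rho δ e (c (s8Lift M j)) * (⟨j a, 0⟩ : Q2 δ L)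

theorem s8Theta_map [Normal F L] (hd : Dat k δ e) {c : (L ≃ₐ[F] L) → (W k L).toAffine.Point}
    (hc : Coc3 k F L c)
    (hK : ∀ σ, Ker (c σ)) (M : IntermediateField F L) [Fintype (M →ₐ[F] L)]
    (hM : ∀ σ ∈ M.fixingSubgroup, c σ = 0) (a : M) (σ : L ≃ₐ[F] L) :
    mapQ (σ : L →+* L) (s8Theta δ e c M a) = rho δ e (c σ) ^ 2 * s8Theta δ e c M a := by
  unfold s8Theta
  rw [map_sum, Finset.mul_sum]
  refine Fintype.sum_bijective (fun j : M →ₐ[F] L => (σ : L →ₐ[F] L).comp j) ?_ _ _ ?_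
  · constructor
    · intro j j' h
      ext x
      have := DFunLike.congr_fun h x
      exact σ.injective this
    · intro j
      refine ⟨((σ⁻¹ : L ≃ₐ[F] L) : L →ₐ[F] L).comp j, ?_⟩
      ext x
      exact AlgEquiv.apply_symm_apply σ (j x)
  · intro j
    have h0 : mapQ (σ : L →+* L) (⟨j a, 0⟩ : Q2 δ L) = ⟨σ (j a), 0⟩ := by
      rw [mapQ_apply, map_zero]
      rfl
    rw [map_mul, h0, s8_A_map hd hc hK, mul_assoc]
    congr 2
    · congr 1
      refine s8_congr hc M hM _ _ fun x hx => ?_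
      rw [AlgEquiv.mul_apply]
      have e1 := s8Lift_apply M j ⟨x, hx⟩
      have e2 := s8Lift_apply M ((σ : L →ₐ[F] L).comp j) ⟨x, hx⟩
      rw [show ((⟨x, hx⟩ : M) : L) = x from rfl] at e1 e2
      rw [e1, e2]
      rfl

theorem s8_ev_ne (hd : Dat k δ e) (s : L) (hs : s * s = (δ : L)) (T : (W k L).toAffine.Point)
    (hT : Ker T) :
    q6_lift (RingHom.id L) s hs (rho δ e T) ≠ 0 := by
  intro h
  have h1 := congrArg (q6_lift (RingHom.id L) s hs) (rho_ker_cube hd T hT)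
  rw [map_pow, h, map_one] at h1
  norm_num at h1

omit [CharZero L] in
theorem s8_ev_mk (s : L) (hs : s * s = (δ : L)) (x : L) :
    q6_lift (RingHom.id L) s hs (⟨x, 0⟩ : Q2 δ L) = x := by
  change x + 0 * s = x
  ring

/-- the value of the Poincare series at a root, as a linear map -/
noncomputable def s8Val [Normal F L] (e : ℤ) (c : (L ≃ₐ[F] L) → (W k L).toAffine.Point)
    (M : IntermediateField F L) [Fintype (M →ₐ[F] L)] (s : L) (hs : s * s = (δ : L)) : M →ₗ[F] L :=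
  ∑ j : M →ₐ[F] L, q6_lift (RingHom.id L) s hs (rho δ e (c (s8Lift M j))) • j.toLinearMap

omit [CharZero L] in
theorem s8Val_apply [Normal F L] (c : (L ≃ₐ[F] L) → (W k L).toAffine.Point)
    (M : IntermediateField F L) [Fintype (M →ₐ[F] L)] (s : L) (hs : s * s = (δ : L)) (a : M) :
    q6_lift (RingHom.id L) s hs (s8Theta δ e c M a) = s8Val e c M s hs a := by
  unfold s8Theta s8Val
  rw [map_sum, LinearMap.sum_apply]
  refine Finset.sum_congr rfl fun j _ => ?_
  rw [map_mul, s8_ev_mk, LinearMap.smul_apply, smul_eq_mul]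
  rfl

theorem s8Val_ne [Normal F L] (hd : Dat k δ e) (c : (L ≃ₐ[F] L) → (W k L).toAffine.Point)
    (hK : ∀ σ, Ker (c σ))
    (M : IntermediateField F L) [Fintype (M →ₐ[F] L)] (s : L) (hs : s * s = (δ : L)) :
    s8Val e c M s hs ≠ 0 := by
  intro h
  have h1 := linearIndependent_algHom_toLinearMap F M L
  rw [Fintype.linearIndependent_iff] at h1
  exact s8_ev_ne hd s hs _ (hK _) (h1 _ h M.val)

end S8Aux

theorem hilbert90_3 {k δ e : ℤ} (hd : Dat k δ e) (F L : Type) [Field F] [CharZero F] [Field L]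
    [Algebra F L] [IsAlgClosure F L] (c : (L ≃ₐ[F] L) → (W k L).toAffine.Point)
    (hc : Coc3 k F L c) (hK : ∀ σ, Ker (c σ)) :
    ∃ S : Q2 δ L, IsUnit S ∧ ∀ σ : L ≃ₐ[F] L, mapQ (σ : L →+* L) S = rho δ e (c σ) * S := by
  have : CharZero L := charZero_of_injective_algebraMap (algebraMap F L).injective
  have : IsAlgClosed L := IsAlgClosure.isAlgClosed F
  have : Normal F L := IsAlgClosure.normal F L
  obtain ⟨s, hs⟩ := IsAlgClosed.exists_pow_nat_eq (δ : L) (n := 2) (by norm_num)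
  have hs1 : s * s = (δ : L) := by rw [← sq, hs]
  have hs2 : (-s) * (-s) = (δ : L) := by rw [neg_mul_neg, hs1]
  obtain ⟨M, hfin, hM⟩ := s8_exists_M hc
  have : Fintype (M →ₐ[F] L) := Fintype.ofFinite _
  have key : ∃ a : M, s8Val e c M s hs1 a ≠ 0 ∧ s8Val e c M (-s) hs2 a ≠ 0 := by
    by_contra hcon
    push Not at hcon
    let p : Fin 2 → Subspace F M := ![LinearMap.ker (s8Val e c M s hs1),
      LinearMap.ker (s8Val e c M (-s) hs2)]
    have hcov : ⋃ i, (p i : Set M) = Set.univ := by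
      rw [Set.eq_univ_iff_forall]
      intro a
      rw [Set.mem_iUnion]
      by_cases h1 : s8Val e c M s hs1 a = 0
      · exact ⟨0, h1⟩
      · exact ⟨1, hcon a h1⟩
    obtain ⟨i, hi⟩ := Subspace.exists_eq_top_of_iUnion_eq_univ hcov
    fin_cases i
    · exact s8Val_ne hd c hK M s hs1 (LinearMap.ker_eq_top.1 hi)
    · exact s8Val_ne hd c hK M (-s) hs2 (LinearMap.ker_eq_top.1 hi)
  obtain ⟨a, ha, hb⟩ := key
  have hnorm : (s8Theta δ e c M a).norm ≠ 0 := by
    have h1 : (s8Theta δ e c M a).norm = q6_lift (RingHom.id L) s hs1 (s8Theta δ e c M a) *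
        q6_lift (RingHom.id L) (-s) hs2 (s8Theta δ e c M a) := by
      rw [QuadraticAlgebra.norm_def]
      change _ = ((s8Theta δ e c M a).re + (s8Theta δ e c M a).im * s) *
        ((s8Theta δ e c M a).re + (s8Theta δ e c M a).im * -s)
      linear_combination ((s8Theta δ e c M a).im ^ 2) * hs1
    rw [h1, s8Val_apply, s8Val_apply]
    exact mul_ne_zero ha hb
  have hunit : IsUnit (s8Theta δ e c M a) :=
    QuadraticAlgebra.isUnit_iff_norm_isUnit.2 (isUnit_iff_ne_zero.2 hnorm)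
  refine ⟨s8Theta δ e c M a ^ 2, hunit.pow 2, fun σ => ?_⟩
  rw [map_pow, s8Theta_map hd hc hK M hM a σ]
  have h3 := rho_ker_cube hd _ (hK σ)
  linear_combination (rho δ e (c σ) * s8Theta δ e c M a ^ 2) * h3

end SB3
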