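import Pool.Agent.MP_9ab903_nt.S3.SEL
import Pool.Agent.MP_9ab903_nt.S3.S3
import Pool.Agent.MP_9ab903_nt.S3.S4
import Pool.Agent.MP_9ab903_nt.S3.S7
import Pool.Agent.MP_9ab903_nt.S3.S8
import Pool.Agent.MP_9ab903_nt.S3.S10
import Pool.Agent.MP_9ab903_nt.S3.S11
import Pool.Agent.MP_9ab903_nt.S3.S12
import Pool.Agent.MP_9ab903_nt.S3.S13
import Pool.Agent.MP_9ab903_nt.SB.FIN
import Pool.Agent.MP_9ab903_nt.Defs

set_option autoImplicit false

open NumberField IsDedekindDomain CM27 BS3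
open scoped Classical

namespace SB3

/-! ## [SB3-FIN] the Tate–Shafarevich group has no element of order `3` (file FIN.lean) -/

/-- The additive homomorphism on points. -/
noncomputable def ptHomW {k : ℤ} {K L : Type} [Field K] [Field L] (f : K →+* L) :
    (W k K).toAffine.Point →+ (W k L).toAffine.Point :=
  AddMonoidHom.mk' (ptW f) (ptW_add f)

theorem ptHomW_apply {k : ℤ} {K L : Type} [Field K] [Field L] (f : K →+* L)
    (P : (W k K).toAffine.Point) : ptHomW f P = ptW f P := rfl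

theorem ptHomW_comp {k : ℤ} {K L M : Type} [Field K] [Field L] [Field M] (f : K →+* L)
    (g : L →+* M) (P : (W k K).toAffine.Point) :
    ptHomW g (ptHomW f P) = ptHomW (g.comp f) P := ptW_comp f g P

theorem fin_loc_ptW {k : ℤ} {F L : Type} [Field F] [Field L] [Algebra F L]
    [Algebra.IsAlgebraic F L] (P : (W k L).toAffine.Point) :
    IsLocallyConstant fun σ : L ≃ₐ[F] L => ptHomW (σ : L →+* L) P := by
  rcases P with _ | ⟨x, y, h⟩
  · exact IsLocallyConstant.const _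
  · rw [IsLocallyConstant.iff_exists_open]
    intro σ
    obtain ⟨U, hU, hσU, hU'⟩ := (IsLocallyConstant.iff_exists_open _).1
      (fin_loc_apply (F := F) x) σ
    obtain ⟨V, hV, hσV, hV'⟩ := (IsLocallyConstant.iff_exists_open _).1
      (fin_loc_apply (F := F) y) σ
    refine ⟨U ∩ V, hU.inter hV, ⟨hσU, hσV⟩, fun τ hτ => ?_⟩
    have h1 : τ x = σ x := hU' τ hτ.1
    have h2 : τ y = σ y := hV' τ hτ.2
    rw [ptHomW_apply, ptHomW_apply]
    simp only [ptW]
    congr 1

/-- subtracting a coboundary -/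
theorem Coc3.sub {k : ℤ} {F L : Type} [Field F] [Field L] [Algebra F L] [Algebra.IsAlgebraic F L]
    {c : (L ≃ₐ[F] L) → (W k L).toAffine.Point} (hc : Coc3 k F L c) (P : (W k L).toAffine.Point) :
    Coc3 k F L (fun σ => c σ - (ptHomW (σ : L →+* L) P - P)) := by
  have hcomp : ∀ σ τ : L ≃ₐ[F] L, (((σ * τ : L ≃ₐ[F] L)) : L →+* L) =
      (σ : L →+* L).comp (τ : L →+* L) := fun σ τ => rfl
  refine ⟨hc.loc.sub ((fin_loc_ptW (F := F) P).sub (IsLocallyConstant.const P)), fun σ τ => ?_⟩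
  have h4 := hc.crossed σ τ
  change c (σ * τ) - (ptHomW ((σ * τ : L ≃ₐ[F] L) : L →+* L) P - P) =
    (c σ - (ptHomW (σ : L →+* L) P - P)) +
      ptHomW (σ : L →+* L) (c τ - (ptHomW (τ : L →+* L) P - P))
  rw [h4, ← ptHomW_apply, hcomp, ← ptHomW_comp, map_sub, map_sub]
  abel

theorem LocTriv.sub {k : ℤ} {F L : Type} [Field F] [Field L] [Algebra F L]
    {c : (L ≃ₐ[F] L) → (W k L).toAffine.Point} {Fv Lv : Type} [Field Fv] [Algebra F Fv]
    [Field Lv] [Algebra Fv Lv] [Algebra F Lv] [IsScalarTower F Fv Lv] (h : LocTriv c Fv Lv)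
    (P : (W k L).toAffine.Point) :
    LocTriv (fun σ => c σ - (ptHomW (σ : L →+* L) P - P)) Fv Lv := by
  intro ι
  obtain ⟨Q, hQ⟩ := h ι
  refine ⟨Q - ptHomW (ι : L →+* Lv) P, fun τ σ hστ => ?_⟩
  have h7 : (ι : L →+* Lv).comp (σ : L →+* L) = (τ : Lv →+* Lv).comp (ι : L →+* Lv) := by
    ext x
    exact hστ x
  have h6 := hQ τ σ hστ
  rw [← ptHomW_apply, ← ptHomW_apply] at h6 ⊢
  rw [map_sub, map_sub, map_sub, ptHomW_comp, ptHomW_comp, h7, h6]
  abel

theorem isoHom_sub {k : ℤ} (hk : k ≠ 0) {K : Type} [Field K] [CharZero K]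
    (P Q : (W k K).toAffine.Point) : iso hk (P - Q) = iso hk P - iso hk Q := iso_sub hk P Q

/-- The image of a cocycle by the isogeny. -/
theorem Coc3.iso {k : ℤ} (hk : k ≠ 0) {F L : Type} [Field F] [Field L] [CharZero L] [Algebra F L]
    {c : (L ≃ₐ[F] L) → (W k L).toAffine.Point} (hc : Coc3 k F L c) :
    Coc3 (-27 * k) F L (fun σ => SB3.iso hk (c σ)) := by
  refine ⟨hc.loc.comp (SB3.iso hk), fun σ τ => ?_⟩
  rw [hc.crossed, iso_add, iso_ptW]

theorem LocTriv.iso {k : ℤ} (hk : k ≠ 0) {F L : Type} [Field F] [Field L] [CharZero L]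
    [Algebra F L] {c : (L ≃ₐ[F] L) → (W k L).toAffine.Point} {Fv Lv : Type} [Field Fv]
    [Algebra F Fv] [Field Lv] [CharZero Lv] [Algebra Fv Lv] [Algebra F Lv] [IsScalarTower F Fv Lv]
    (h : LocTriv c Fv Lv) : LocTriv (fun σ => SB3.iso hk (c σ)) Fv Lv := by
  intro ι
  obtain ⟨Q, hQ⟩ := h ι
  refine ⟨SB3.iso hk Q, fun τ σ hστ => ?_⟩
  change ptW (ι : L →+* Lv) (SB3.iso hk (c σ)) = ptW (τ : Lv →+* Lv) (SB3.iso hk Q) - SB3.iso hk Q
  rw [← iso_ptW, ← iso_ptW, hQ τ σ hστ, iso_sub]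

/-- A cocycle with values in the kernel of the isogeny, which is trivial at all finite places, is
principal, if the Selmer group is trivial. -/
theorem sha_step {k δ e : ℤ} (hd : Dat k δ e) (F : Type) [Field F] [NumberField F]
    (hω : ∀ u : F, u ^ 3 = 1 → u = 1)
    (hsel : ∀ z : Q2 δ F, z ≠ 0 → (∃ n : F, z.norm = n ^ 3) →
      (∀ v : HeightOneSpectrum (𝓞 F), LocCond3 k e z (v.adicCompletion F)) →
      ∃ t : Q2 δ F, z = t ^ 3)
    (c : (AlgebraicClosure F ≃ₐ[F] AlgebraicClosure F) → (W k (AlgebraicClosure F)).toAffine.Point)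
    (hc : Coc3 k F (AlgebraicClosure F) c) (hK : ∀ σ, Ker (c σ))
    (hloc : ∀ v : HeightOneSpectrum (𝓞 F),
      LocTriv c (v.adicCompletion F) (AlgebraicClosure (v.adicCompletion F))) :
    ∃ T : (W k (AlgebraicClosure F)).toAffine.Point,
      ∀ σ, c σ = ptHomW (σ : AlgebraicClosure F →+* AlgebraicClosure F) T - T := by
  obtain ⟨S, hS, hSσ⟩ := hilbert90_3 hd F (AlgebraicClosure F) c hc hK
  obtain ⟨z, hz0, hzN, hzS⟩ := exists_class3 hd F (AlgebraicClosure F) c hK S hS hSσ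
  have hloc' : ∀ v : HeightOneSpectrum (𝓞 F), LocCond3 k e z (v.adicCompletion F) := by
    intro v
    let ι : AlgebraicClosure F →ₐ[F] AlgebraicClosure (v.adicCompletion F) := IsAlgClosed.lift
    obtain ⟨Q, hQ⟩ := hloc v ι
    exact locCond3 hd F (AlgebraicClosure F) c hK S hS hSσ z hzS (v.adicCompletion F)
      (AlgebraicClosure (v.adicCompletion F)) ι Q hQ
  obtain ⟨t, ht⟩ := hsel z hz0 hzN hloc'
  obtain ⟨T, hT⟩ := trivial_of_cube hd F (AlgebraicClosure F) hω c hK S hS hSσ t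
    (by rw [← map_pow, ← ht, hzS])
  exact ⟨T, hT⟩

/-- If both Selmer groups are trivial: a cocycle which is trivial at all finite places and whose
triple is principal is principal. -/
theorem sha_three_core {k δ e δ' e' : ℤ} (hd : Dat k δ e) (hd' : Dat (-27 * k) δ' e') (F : Type)
    [Field F] [NumberField F] (hω : ∀ u : F, u ^ 3 = 1 → u = 1)
    (hsel : ∀ z : Q2 δ F, z ≠ 0 → (∃ n : F, z.norm = n ^ 3) →
      (∀ v : HeightOneSpectrum (𝓞 F), LocCond3 k e z (v.adicCompletion F)) →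
      ∃ t : Q2 δ F, z = t ^ 3)
    (hsel' : ∀ z : Q2 δ' F, z ≠ 0 → (∃ n : F, z.norm = n ^ 3) →
      (∀ v : HeightOneSpectrum (𝓞 F), LocCond3 (-27 * k) e' z (v.adicCompletion F)) →
      ∃ t : Q2 δ' F, z = t ^ 3)
    (c : (AlgebraicClosure F ≃ₐ[F] AlgebraicClosure F) → (W k (AlgebraicClosure F)).toAffine.Point)
    (hc : Coc3 k F (AlgebraicClosure F) c)
    (hloc : ∀ v : HeightOneSpectrum (𝓞 F),
      LocTriv c (v.adicCompletion F) (AlgebraicClosure (v.adicCompletion F)))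
    (h3 : ∃ P : (W k (AlgebraicClosure F)).toAffine.Point, ∀ σ,
      3 • c σ = ptHomW (σ : AlgebraicClosure F →+* AlgebraicClosure F) P - P) :
    ∃ P : (W k (AlgebraicClosure F)).toAffine.Point, ∀ σ,
      c σ = ptHomW (σ : AlgebraicClosure F →+* AlgebraicClosure F) P - P := by
  have h30 : (3 : AlgebraicClosure F) ≠ 0 := three_ne_zero
  have hs : ((-27 * (-27 * k) : ℤ) : AlgebraicClosure F) = (3 : AlgebraicClosure F) ^ 6 * k := by
    push_cast; ring
  -- division by three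
  obtain ⟨Q, hQ⟩ := h3
  obtain ⟨P', hP'⟩ := iso_surj hd'.ne (scal (3 : AlgebraicClosure F) h30 hs Q)
  obtain ⟨P, hP⟩ := iso_surj hd.ne P'
  have hP3 : Q = 3 • P := by
    apply scal_injective (3 : AlgebraicClosure F) h30 hs
    rw [← iso_iso hd.ne hd'.ne, hP, hP']
  -- first step
  have hc1 := hc.sub P
  have hl1 := fun v => (hloc v).sub P
  set c1 : (AlgebraicClosure F ≃ₐ[F] AlgebraicClosure F) →
    (W k (AlgebraicClosure F)).toAffine.Point :=
    fun σ => c σ - (ptHomW (σ : AlgebraicClosure F →+* AlgebraicClosure F) P - P) with hc1def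
  have h3c : ∀ σ, 3 • c1 σ = 0 := by
    intro σ
    rw [hc1def]
    simp only
    rw [nsmul_sub, hQ σ, hP3, map_nsmul, nsmul_sub, sub_self]
  have hK' : ∀ σ, Ker (iso hd.ne (c1 σ)) := by
    intro σ
    rw [← iso_eq_zero hd'.ne, iso_iso hd.ne hd'.ne h30 hs, h3c]
    rfl
  have hchar : ∀ v : HeightOneSpectrum (𝓞 F),
      CharZero (AlgebraicClosure (v.adicCompletion F)) := fun v =>
    charZero_of_injective_algebraMap
      (algebraMap F (AlgebraicClosure (v.adicCompletion F))).injective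
  obtain ⟨T, hT⟩ := sha_step hd' F hω hsel' (fun σ => iso hd.ne (c1 σ)) (hc1.iso hd.ne) hK'
    (fun v => by
      have := hchar v
      exact (hl1 v).iso hd.ne)
  obtain ⟨T', hT'⟩ := iso_surj hd.ne T
  -- second step
  have hc2 := hc1.sub T'
  have hl2 := fun v => (hl1 v).sub T'
  set c2 : (AlgebraicClosure F ≃ₐ[F] AlgebraicClosure F) →
    (W k (AlgebraicClosure F)).toAffine.Point :=
    fun σ => c1 σ - (ptHomW (σ : AlgebraicClosure F →+* AlgebraicClosure F) T' - T') with hc2def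
  have hK : ∀ σ, Ker (c2 σ) := by
    intro σ
    have h5 : iso hd.ne (c1 σ) =
      ptHomW (σ : AlgebraicClosure F →+* AlgebraicClosure F) T - T := hT σ
    have h8 : c2 σ = c1 σ -
      (ptHomW (σ : AlgebraicClosure F →+* AlgebraicClosure F) T' - T') := rfl
    rw [← iso_eq_zero hd.ne, h8, iso_sub hd.ne (c1 σ), h5, iso_sub, ptHomW_apply, ptHomW_apply,
      iso_ptW, hT', sub_self]
  obtain ⟨T2, hT2⟩ := sha_step hd F hω hsel c2 hc2 hK hl2
  refine ⟨P + T' + T2, fun σ => ?_⟩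
  have h6 : c σ - (ptHomW (σ : AlgebraicClosure F →+* AlgebraicClosure F) P - P) -
      (ptHomW (σ : AlgebraicClosure F →+* AlgebraicClosure F) T' - T') =
      ptHomW (σ : AlgebraicClosure F →+* AlgebraicClosure F) T2 - T2 := hT2 σ
  have h7 : c σ = (ptHomW (σ : AlgebraicClosure F →+* AlgebraicClosure F) T2 - T2) +
      (ptHomW (σ : AlgebraicClosure F →+* AlgebraicClosure F) T' - T') +
      (ptHomW (σ : AlgebraicClosure F →+* AlgebraicClosure F) P - P) := by
    rw [← h6]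
    abel
  rw [h7, map_add, map_add]
  abel

/-! ### transport to the points of the base change -/

/-- The points of the base change of `W k F` are the points of `W k L`. -/
noncomputable def trW (k : ℤ) (F L : Type) [Field F] [Field L] [Algebra F L] :
    ((W k F).baseChange L).toAffine.Point ≃+ (W k L).toAffine.Point :=
  trEq (W_map k (algebraMap F L))

theorem trW_some (k : ℤ) (F L : Type) [Field F] [Field L] [Algebra F L] (x y : L)
    (h : ((W k F).baseChange L).toAffine.Nonsingular x y) :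
    ∃ h', trW k F L (.some x y h) = .some x y h' :=
  ⟨_, trEq_some _ x y h⟩

theorem trW_map (k : ℤ) (F L L' : Type) [Field F] [Field L] [Algebra F L] [Field L']
    [Algebra F L'] (f : L →ₐ[F] L') (P : ((W k F).baseChange L).toAffine.Point) :
    trW k F L' (WeierstrassCurve.Affine.Point.map (W' := W k F) f P) =
      ptW (f : L →+* L') (trW k F L P) := by
  rcases P with _ | ⟨x, y, h⟩
  · have h1 : (WeierstrassCurve.Affine.Point.zero : ((W k F).baseChange L).toAffine.Point) = 0 :=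
      rfl
    rw [h1, map_zero, map_zero, map_zero]
    rfl
  · obtain ⟨h', h2⟩ := trW_some k F L x y h
    rw [h2, WeierstrassCurve.Affine.Point.map_some]
    obtain ⟨h'', h3⟩ := trW_some k F L' (f x) (f y)
      ((WeierstrassCurve.Affine.baseChange_nonsingular (W k F).toAffine f.injective ..).mpr h)
    rw [h3]
    rfl

theorem sha_three_gen {k δ e δ' e' : ℤ} (hd : Dat k δ e) (hd' : Dat (-27 * k) δ' e') (F : Type)
    [Field F] [NumberField F] (hω : ∀ u : F, u ^ 3 = 1 → u = 1)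
    (hsel : ∀ z : Q2 δ F, z ≠ 0 → (∃ n : F, z.norm = n ^ 3) →
      (∀ v : HeightOneSpectrum (𝓞 F), LocCond3 k e z (v.adicCompletion F)) →
      ∃ t : Q2 δ F, z = t ^ 3)
    (hsel' : ∀ z : Q2 δ' F, z ≠ 0 → (∃ n : F, z.norm = n ^ 3) →
      (∀ v : HeightOneSpectrum (𝓞 F), LocCond3 (-27 * k) e' z (v.adicCompletion F)) →
      ∃ t : Q2 δ' F, z = t ^ 3)
    (c : SBSD.AbsGal F → SBSD.Pts (W k F) (AlgebraicClosure F)) (hc : c ∈ SBSD.cocycles (W k F))
    (hloc : ∀ v : HeightOneSpectrum (𝓞 F), SBSD.TrivialOver (W k F) (v.adicCompletion F) c)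
    (h3 : ∃ P : SBSD.Pts (W k F) (AlgebraicClosure F), ∀ σ : SBSD.AbsGal F,
      3 • c σ = WeierstrassCurve.Affine.Point.map (W' := W k F) σ.toAlgHom P - P) :
    c ∈ SBSD.coboundaries (W k F) := by
  obtain ⟨hc1, hc2⟩ := hc
  let L := AlgebraicClosure F
  let e := trW k F L
  have hgact : ∀ (σ : L ≃ₐ[F] L) (P : SBSD.Pts (W k F) (AlgebraicClosure F)),
      e (WeierstrassCurve.Affine.Point.map (W' := W k F) σ.toAlgHom P) =
        ptHomW (σ : L →+* L) (e P) := fun σ P => trW_map k F L L σ.toAlgHom P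
  obtain ⟨Q, hQ⟩ := h3
  obtain ⟨P, hP⟩ := sha_three_core hd hd' F hω hsel hsel' (fun σ => e (c σ))
    ⟨hc1.comp e, fun σ τ => by
      rw [hc2 σ τ, map_add, hgact]
      rfl⟩
    (fun v ι => by
      obtain ⟨Q', hQ'⟩ := hloc v ι
      refine ⟨trW k F (AlgebraicClosure (v.adicCompletion F)) Q', fun τ σ hστ => ?_⟩
      have h6 := congrArg (trW k F (AlgebraicClosure (v.adicCompletion F))) (hQ' τ σ hστ)
      rw [trW_map, map_sub, trW_map] at h6
      exact h6)
    ⟨e Q, fun σ => by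
      change 3 • e (c σ) = ptHomW (σ : L →+* L) (e Q) - e Q
      rw [← map_nsmul, hQ σ, map_sub, hgact]⟩
  refine ⟨e.symm P, fun σ => e.injective ?_⟩
  rw [map_sub, hgact, e.apply_symm_apply]
  exact hP σ

/-! ### the curves `y² = x³ - r²` -/

theorem good3_of_loc {k δ e : ℤ} (hd : Dat k δ e) (F : Type) [Field F] [NumberField F]
    [Fact (NonSq δ F)] (z : Q2 δ F) (hz : z ≠ 0) (hn : ∃ n : F, z.norm = n ^ 3)
    (hloc : ∀ v : HeightOneSpectrum (𝓞 F), LocCond3 k e z (v.adicCompletion F))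
    (h3 : δ = 3 → ∀ v : HeightOneSpectrum (𝓞 F), (3 : 𝓞 F) ∈ v.asIdeal →
      (3 : 𝓞 F) ∉ v.asIdeal ^ 2 → InU3 (v.valuation F) z) : Good3 e z :=
  ⟨hz, hn, fun P hP => val_of_locCond3 hd F z hn hloc P hP, h3⟩

/-- A cocycle which is trivial at all finite places and whose triple is principal is principal. -/
theorem sha_three (m : ℕ) [NeZero m] (hm : Good m) (M : Type) [Field M] [NumberField M]
    [IsCyclotomicExtension {m} ℚ M] (F : IntermediateField ℚ M) (n : ℕ)
    (hF : Module.finrank ℚ F = 3 ^ n) (r : ℤ) (hr0 : r ≠ 0) (hr9 : r ^ 2 % 9 = 7)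
    (hrp : ∀ p : ℕ, p.Prime → (p : ℤ) ∣ r → p = 2 ∨ p % 12 = 7)
    (c : SBSD.AbsGal F → SBSD.Pts (W (-r ^ 2) F) (AlgebraicClosure F))
    (hc : c ∈ SBSD.cocycles (W (-r ^ 2) F))
    (hloc : ∀ v : HeightOneSpectrum (𝓞 F), SBSD.TrivialOver (W (-r ^ 2) F) (v.adicCompletion F) c)
    (h3 : ∃ P : SBSD.Pts (W (-r ^ 2) F) (AlgebraicClosure F), ∀ σ : SBSD.AbsGal F,
      3 • c σ = WeierstrassCurve.Affine.Point.map (W' := W (-r ^ 2) F) σ.toAlgHom P - P) :
    c ∈ SBSD.coboundaries (W (-r ^ 2) F) := by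
  have : IsAbelianGalois ℚ M := IsCyclotomicExtension.isAbelianGalois {m} ℚ M
  have : IsAbelianGalois ℚ F := IsAbelianGalois.tower_bot ℚ F M
  have : IsGalois ℚ F := this.toIsGalois
  have f1 : Fact (NonSq (-1) F) := ⟨nonSq_of F n hF (-1) (Or.inl rfl)⟩
  have f3 : Fact (NonSq 3 F) := ⟨nonSq_of F n hF 3 (Or.inr rfl)⟩
  refine sha_three_gen (dat_three r hr0) (dat_neg_one r hr0) F (cube_one F n hF) ?_ ?_ c hc hloc h3
  · intro z hz hn hl
    refine selmer_trivial3 m hm M F n hF 3 r (Or.inr rfl) hr0 ?_ z ?_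
    · intro p hp hd
      rcases hrp p hp hd with h | h
      · exact Or.inl h
      · exact Or.inr (Or.inr h)
    · refine good3_of_loc (dat_three r hr0) F z hz hn hl ?_
      intro _ v h3 h9
      exact inU3_of_locCond3 F r hr9 z v h3 h9
        (neg_one_nonsq_completion F n hF 3 Nat.prime_three rfl v (by exact_mod_cast h3)) (hl v)
  · intro z hz hn hl
    refine selmer_trivial3 m hm M F n hF (-1) (9 * r) (Or.inl rfl)
      (mul_ne_zero (by norm_num) hr0) ?_ z ?_
    · intro p hp hd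
      have hpi : Prime (p : ℤ) := Nat.prime_iff_prime_int.1 hp
      rcases hpi.dvd_or_dvd hd with h | h
      · right; left
        have h1 : (p : ℤ) ∣ 3 ^ 2 := by norm_num; exact h
        have h2 := hpi.dvd_of_dvd_pow h1
        exact (Nat.prime_dvd_prime_iff_eq hp Nat.prime_three).1 (by exact_mod_cast h2)
      · rcases hrp p hp h with h | h
        · exact Or.inl h
        · exact Or.inr (Or.inr h)
    · refine good3_of_loc (dat_neg_one r hr0) F z hz hn hl ?_
      intro h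
      norm_num at h

theorem fin_three_pow {A : Type} [AddCommGroup A] (h : ∀ x : A, 3 • x = 0 → x = 0) (k : ℕ) :
    ∀ x : A, 3 ^ k • x = 0 → x = 0 := by
  induction k with
  | zero =>
    intro x h2
    simpa using h2
  | succ k ih =>
    intro x h2
    refine ih x (h _ ?_)
    rw [smul_smul, ← pow_succ', h2]

/-- The Tate–Shafarevich group has no element of `3`-power order. -/
theorem sha_three_pow (m : ℕ) [NeZero m] (hm : Good m) (M : Type) [Field M] [NumberField M]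
    [IsCyclotomicExtension {m} ℚ M] (F : IntermediateField ℚ M) (n : ℕ)
    (hF : Module.finrank ℚ F = 3 ^ n) (r : ℤ) (hr0 : r ≠ 0) (hr9 : r ^ 2 % 9 = 7)
    (hrp : ∀ p : ℕ, p.Prime → (p : ℤ) ∣ r → p = 2 ∨ p % 12 = 7) (k : ℕ)
    (x : SBSD.Sha (W (-r ^ 2) F)) (h2 : 3 ^ k • x = 0) : x = 0 := by
  refine fin_three_pow (A := SBSD.Sha (W (-r ^ 2) F)) (fun x hx => ?_) k x h2
  obtain ⟨c, rfl⟩ := QuotientAddGroup.mk_surjective x
  obtain ⟨hc1, hc2, -⟩ := c.2
  have h3 : 3 • c ∈ (SBSD.coboundaries (W (-r ^ 2) F)).addSubgroupOf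
      (SBSD.locTrivial (W (-r ^ 2) F)) := by
    rw [← QuotientAddGroup.eq_zero_iff]
    exact hx
  obtain ⟨P, hP⟩ := AddSubgroup.mem_addSubgroupOf.1 h3
  exact (QuotientAddGroup.eq_zero_iff _).2 (AddSubgroup.mem_addSubgroupOf.2
    (sha_three m hm M F n hF r hr0 hr9 hrp c.1 hc1 hc2 ⟨P, fun σ => hP σ⟩))

end SB3
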