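import Pool.Agent.MP_9ab903_nt.S3.S14
import Pool.Agent.MP_9ab903_nt.SB.CO

set_option autoImplicit false

open NumberField IsDedekindDomain CM27 BS3
open scoped Classical

namespace SB3

/-! ## [SB3-S15] the group of good elements (file S15.lean; uses S14, SB/CO) -/

theorem s15_norm_mapQ {δ : ℤ} {K L : Type} [Field K] [Field L] (f : K →+* L) (z : Q2 δ K) :
    (mapQ f z).norm = f z.norm := by
  rw [QuadraticAlgebra.norm_def, QuadraticAlgebra.norm_def, mapQ_apply]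
  simp

/-- the automorphism of `Q2 δ F` induced by an automorphism of `F` -/
def s15_equiv {δ : ℤ} {F : Type} [Field F] (σ : F ≃+* F) : Q2 δ F ≃+* Q2 δ F :=
  RingEquiv.ofRingHom (mapQ (σ : F →+* F)) (mapQ (σ.symm : F →+* F))
    (RingHom.ext fun z => by
      rw [RingHom.comp_apply, RingHom.id_apply, mapQ_apply, mapQ_apply]
      simp)
    (RingHom.ext fun z => by
      rw [RingHom.comp_apply, RingHom.id_apply, mapQ_apply, mapQ_apply]
      simp)

theorem s15_int_mem {A : Type} [CommRing A] (I : Ideal A) (n : ℤ) :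
    ((n : ℤ) : A) ∈ I ↔ ((n.natAbs : ℕ) : A) ∈ I := by
  have h0 : ((n.natAbs : ℕ) : A) = ((n.natAbs : ℤ) : A) := by rw [Int.cast_natCast]
  rw [h0]
  rcases le_total 0 n with h | h
  · rw [Int.natAbs_of_nonneg h]
  · rw [Int.ofNat_natAbs_of_nonpos h, Int.cast_neg, neg_mem_iff]

variable {F : Type} [Field F] [NumberField F] {δ : ℤ} [Fact (NonSq δ F)] {e : ℤ}

theorem Good3.mul {z z' : Q2 δ F} (h : Good3 e z) (h' : Good3 e z') : Good3 e (z * z') := by
  refine ⟨mul_ne_zero h.ne h'.ne, ?_, ?_, ?_⟩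
  · obtain ⟨n, hn⟩ := h.norm
    obtain ⟨n', hn'⟩ := h'.norm
    exact ⟨n * n', by rw [map_mul, hn, hn']; ring⟩
  · intro P hP
    obtain ⟨g, hg⟩ := h.val P hP
    obtain ⟨g', hg'⟩ := h'.val P hP
    exact ⟨g * g', by rw [map_mul, hg, hg', mul_pow]⟩
  · intro hδ v hv hv'
    exact InU3.mul (h.three hδ v hv hv') (h'.three hδ v hv hv')

theorem Good3.cube (t : Q2 δ F) (ht : t ≠ 0) : Good3 e (t ^ 3) := by
  refine ⟨pow_ne_zero 3 ht, ⟨t.norm, map_pow _ _ _⟩, ?_, ?_⟩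
  · intro P hP
    exact ⟨P.valuation (Q2 δ F) t, map_pow _ _ _⟩
  · intro hδ v hv hv'
    exact InU3.cube _ t (isUnit_iff_ne_zero.2 ht)

theorem Good3.inv {z : Q2 δ F} (h : Good3 e z) : Good3 e z⁻¹ := by
  have h1 : z⁻¹ = z * z * (z⁻¹) ^ 3 := by
    have := h.ne
    field_simp
  rw [h1]
  exact (h.mul h).mul (Good3.cube _ (inv_ne_zero h.ne))

theorem Good3.map {z : Q2 δ F} (h : Good3 e z) (σ : F ≃+* F) :
    Good3 e (mapQ (σ : F →+* F) z) := by
  have hval : ∀ x : Q2 δ F, s15_equiv σ x = mapQ (σ : F →+* F) x := fun x => rfl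
  refine ⟨?_, ?_, ?_, ?_⟩
  · rw [← hval]
    exact (map_ne_zero_iff _ (s15_equiv σ).injective).2 h.ne
  · obtain ⟨n, hn⟩ := h.norm
    exact ⟨σ n, by rw [s15_norm_mapQ, hn]; simp⟩
  · intro P hP
    obtain ⟨P', hP1, hP2, -⟩ := exists_conj (Q2 δ F) (s15_equiv σ) P
    have h6 : ((6 * δ * e : ℤ) : 𝓞 (Q2 δ F)) ∉ P'.asIdeal := by
      intro h6
      rw [s15_int_mem] at h6 hP
      exact hP ((hP2 _).1 h6)
    obtain ⟨g, hg⟩ := h.val P' h6
    exact ⟨g, by rw [← hval, ← hP1, hg]⟩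
  · intro hδ v hv hv'
    obtain ⟨v', h1, h2, h3⟩ := exists_conj F σ v
    have h4 : (3 : 𝓞 F) ∈ v'.asIdeal := by
      have := (h2 3).2 (by exact_mod_cast hv)
      exact_mod_cast this
    have h5 : (3 : 𝓞 F) ∉ v'.asIdeal ^ 2 := by
      intro h5
      have := (h3 3).1 (by exact_mod_cast h5)
      exact hv' (by exact_mod_cast this)
    exact InU3.map (σ : F →+* F) h1 (h.three hδ v' h4 h5)

end SB3
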