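import Pool.Agent.MP_9ab903_nt.S3.SDefs

set_option autoImplicit false

namespace SB3

/-! ## [SB3-S16] fixed classes of a `3`-group (file S16.lean) -/

theorem exists_fixed_mod3 {U G : Type} [CommGroup U] [Group G] [Finite G]
    [MulDistribMulAction G U] (n : ℕ) (hG : Nat.card G = 3 ^ n) (A : Subgroup U)
    (hA : ∀ σ : G, ∀ z ∈ A, σ • z ∈ A) (z : U) (hz : z ∈ A) (hz' : ¬ ∃ u, z = u ^ 3) :
    ∃ z ∈ A, (¬ ∃ u, z = u ^ 3) ∧ ∀ σ : G, ∃ u, σ • z = z * u ^ 3 := by
  set N : Subgroup A := (powMonoidHom 3 : U →* U).range.subgroupOf A with hNdef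
  have hN : ∀ a : A, a ∈ N ↔ ∃ u : U, (a : U) = u ^ 3 := by
    intro a
    rw [hNdef, Subgroup.mem_subgroupOf, MonoidHom.mem_range]
    exact ⟨fun ⟨Q, hQ⟩ => ⟨Q, hQ.symm⟩, fun ⟨Q, hQ⟩ => ⟨Q, hQ.symm⟩⟩
  set f : G → A →* A := fun σ =>
    { toFun := fun a => ⟨σ • (a : U), hA σ a a.2⟩
      map_one' := Subtype.ext (smul_one σ)
      map_mul' := fun a b => Subtype.ext (smul_mul' σ (a : U) (b : U)) } with hf
  have hfc : ∀ σ (a : A), ((f σ a : A) : U) = σ • (a : U) := fun σ a => rfl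
  have hNs : ∀ σ : G, N ≤ N.comap (f σ) := by
    intro σ a ha
    obtain ⟨Q, hQ⟩ := (hN a).1 ha
    rw [Subgroup.mem_comap]
    exact (hN _).2 ⟨σ • Q, by rw [hfc, hQ, smul_pow']⟩
  set act : G → (A ⧸ N) →* (A ⧸ N) := fun σ => QuotientGroup.map N N (f σ) (hNs σ) with hact
  have hact_mk : ∀ σ (a : A), act σ (QuotientGroup.mk a) = QuotientGroup.mk (f σ a) :=
    fun σ a => rfl
  have hact_one : ∀ x, act 1 x = x := by
    intro x
    obtain ⟨a, rfl⟩ := QuotientGroup.mk_surjective x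
    rw [hact_mk]
    congr 1
    exact Subtype.ext (one_smul G (a : U))
  have hact_mul : ∀ σ τ x, act (σ * τ) x = act σ (act τ x) := by
    intro σ τ x
    obtain ⟨a, rfl⟩ := QuotientGroup.mk_surjective x
    rw [hact_mk, hact_mk, hact_mk]
    congr 1
    exact Subtype.ext (mul_smul σ τ (a : U))
  set P0 : A := ⟨z, hz⟩ with hP0def
  set W : Subgroup (A ⧸ N) :=
    Subgroup.closure (Set.range fun σ : G => (QuotientGroup.mk (f σ P0) : A ⧸ N)) with hW
  have hWs : ∀ σ x, x ∈ W → act σ x ∈ W := by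
    intro σ x hx
    have h1 : W ≤ W.comap (act σ) := by
      rw [hW, Subgroup.closure_le]
      rintro _ ⟨τ, rfl⟩
      change act σ (QuotientGroup.mk (f τ P0)) ∈ Subgroup.closure _
      rw [hact_mk]
      refine Subgroup.subset_closure ⟨σ * τ, ?_⟩
      show (QuotientGroup.mk (f (σ * τ) P0) : A ⧸ N) = QuotientGroup.mk (f σ (f τ P0))
      congr 1
      exact Subtype.ext (mul_smul σ τ (P0 : U))
    exact h1 hx
  let _ : MulAction G W :=
    { smul := fun σ w => ⟨act σ w, hWs σ w w.2⟩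
      one_smul := fun w => Subtype.ext (hact_one w)
      mul_smul := fun σ τ w => Subtype.ext (hact_mul σ τ w) }
  have htwo : ∀ x : A ⧸ N, x ^ 3 = 1 := by
    intro x
    obtain ⟨a, rfl⟩ := QuotientGroup.mk_surjective x
    rw [← QuotientGroup.mk_pow]
    exact (QuotientGroup.eq_one_iff _).2 ((hN _).2 ⟨a, by push_cast; rfl⟩)
  have hfin : Finite W := by
    have hfg : Group.FG W := by
      rw [Group.fg_iff_subgroup_fg]
      exact (Subgroup.fg_iff W).2 ⟨_, rfl, Set.finite_range _⟩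
    refine CommGroup.finite_of_fg_isMulTorsion W ?_
    intro w
    rw [isOfFinOrder_iff_pow_eq_one]
    exact ⟨3, by norm_num, Subtype.ext (htwo w)⟩
  set p0 : W := ⟨QuotientGroup.mk P0, Subgroup.subset_closure ⟨1, by
    show (QuotientGroup.mk (f 1 P0) : A ⧸ N) = QuotientGroup.mk P0
    congr 1
    exact Subtype.ext (one_smul G (P0 : U))⟩⟩ with hp0
  have hp0ne : p0 ≠ 1 := by
    intro h
    apply hz'
    have h1 : (QuotientGroup.mk P0 : A ⧸ N) = 1 := congrArg Subtype.val h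
    exact (hN P0).1 ((QuotientGroup.eq_one_iff _).1 h1)
  have hcard : 3 ∣ Nat.card W := by
    have h1 : orderOf p0 = 3 := by
      refine orderOf_eq_prime (Subtype.ext (htwo _)) hp0ne
    have h3 := orderOf_dvd_natCard p0
    rwa [h1] at h3
  have hp : IsPGroup 3 G := IsPGroup.of_card hG
  have hfact : Fact (Nat.Prime 3) := ⟨Nat.prime_three⟩
  have h0 : (1 : W) ∈ MulAction.fixedPoints G W := by
    intro σ
    exact Subtype.ext (map_one (act σ))
  obtain ⟨b, hb, hb0⟩ := hp.exists_fixed_point_of_prime_dvd_card_of_fixed_point W hcard h0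
  obtain ⟨P, hP⟩ := QuotientGroup.mk_surjective (b : A ⧸ N)
  refine ⟨P, P.2, fun hQ => hb0 ?_, fun σ => ?_⟩
  · apply Subtype.ext
    rw [← hP]
    exact ((QuotientGroup.eq_one_iff _).2 ((hN P).2 hQ)).symm
  · have h1 : act σ (b : A ⧸ N) = b := congrArg Subtype.val (hb σ)
    rw [← hP, hact_mk] at h1
    have h2 := (QuotientGroup.eq.1 h1.symm)
    obtain ⟨Q, hQ⟩ := (hN _).1 h2
    refine ⟨Q, ?_⟩
    rw [← hQ, ← hfc]
    push_cast
    group

end SB3
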