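import Pool.Agent.MP_9ab903_nt.S3.SDefs
import Pool.Agent.MP_9ab903_nt.SB.UR

set_option autoImplicit false

open NumberField IsDedekindDomain CM27 BS3
open scoped Classical

namespace SB3

/-! ## [SB3-S17] `F(√δ) / ℚ(√δ)` is unramified outside `m` (file S17.lean; uses ur_core,
q6_embedding) -/

theorem unram_Q (m : ℕ) [NeZero m] (M : Type) [Field M] [NumberField M]
    [IsCyclotomicExtension {m} ℚ M] (F : IntermediateField ℚ M) (δ c : ℤ) [Fact (NonSq δ ℚ)]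
    [Fact (NonSq δ F)] (v : HeightOneSpectrum (𝓞 (Q2 δ ℚ)))
    (hv : ((c * m : ℤ) : 𝓞 (Q2 δ ℚ)) ∉ v.asIdeal) :
    ∃ P : HeightOneSpectrum (𝓞 (Q2 δ F)), ((c : ℤ) : 𝓞 (Q2 δ F)) ∉ P.asIdeal ∧
      ∀ z : Q2 δ ℚ, P.valuation (Q2 δ F) (mapQ (algebraMap ℚ F) z) =
        v.valuation (Q2 δ ℚ) z := by
  let L := CyclotomicField m (Q2 δ ℚ)
  obtain ⟨ψ, s, hs, hφ⟩ := q6_embedding m M F δ L
  have hvm : (m : 𝓞 (Q2 δ ℚ)) ∉ v.asIdeal := fun h1 => hv (by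
    push_cast; exact Ideal.mul_mem_left _ _ h1)
  have hvc : ((c : ℤ) : 𝓞 (Q2 δ ℚ)) ∉ v.asIdeal := fun h1 => hv (by
    push_cast; exact Ideal.mul_mem_right _ _ h1)
  have := v.isMaximal
  obtain ⟨Q, hQm, hQ⟩ := Ideal.exists_maximal_ideal_liesOver_of_isIntegral
    (S := 𝓞 L) v.asIdeal
  have hQ0 : Q ≠ ⊥ := Ideal.ne_bot_of_liesOver_of_ne_bot v.ne_bot Q
  let w : HeightOneSpectrum (𝓞 L) := ⟨Q, hQm.isPrime, hQ0⟩
  have hw : w.asIdeal.LiesOver v.asIdeal := hQ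
  have hram := cyc_ram_one m L v hvm w
  let _ : Algebra (Q2 δ ℚ) (Q2 δ F) := (mapQ (algebraMap ℚ F)).toAlgebra
  let _ : Algebra (Q2 δ F) L := (q6_lift ψ s hs).toAlgebra
  have _ : IsScalarTower (Q2 δ ℚ) (Q2 δ F) L :=
    IsScalarTower.of_algebraMap_eq fun z => (hφ z).symm
  obtain ⟨P, hP, hval⟩ := ur_core (B := Q2 δ F) v w hram
  refine ⟨P, fun h6 => hvc ?_, hval⟩
  rw [hP.over, Ideal.mem_comap, map_intCast]
  exact h6

end SB3
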