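import Pool.Agent.MP_9ab903_nt.S3.S15
import Pool.Agent.MP_9ab903_nt.S3.S16
import Pool.Agent.MP_9ab903_nt.S3.S17
import Pool.Agent.MP_9ab903_nt.S3.S9
import Pool.Agent.MP_ae0bd0_nt.B3.Q13
import Pool.Agent.MP_ae0bd0_nt.B3.Q7
import Pool.Agent.MP_ae0bd0_nt.B3.Q9
import Pool.Agent.MP_ae0bd0_nt.B3.Final

set_option autoImplicit false

open NumberField IsDedekindDomain CM27 BS3
open scoped Classical

namespace SB3

/-! ## [SB3-SEL] the Selmer groups are trivial (file SEL.lean) -/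

/-- The action of the automorphisms of `F` on the units of `F(√δ)`. -/
@[reducible] noncomputable def selAct3 (δ : ℤ) (F : Type) [Field F] [NumberField F] :
    MulDistribMulAction (F ≃ₐ[ℚ] F) (Q2 δ F)ˣ where
  smul σ z := Units.map ((mapQ (D := δ) (σ : F →+* F) : Q2 δ F →+* Q2 δ F) : Q2 δ F →* Q2 δ F) z
  one_smul z := by
    ext1
    rfl
  mul_smul σ τ z := by
    ext1
    change mapQ (D := δ) ((σ * τ : F ≃ₐ[ℚ] F) : F →+* F) (z : Q2 δ F) =
      mapQ (D := δ) (σ : F →+* F) (mapQ (D := δ) (τ : F →+* F) (z : Q2 δ F))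
    rfl
  smul_mul σ z z' := map_mul _ _ _
  smul_one σ := map_one _

theorem selmer_trivial3 (m : ℕ) [NeZero m] (hm : Good m) (M : Type) [Field M] [NumberField M]
    [IsCyclotomicExtension {m} ℚ M] (F : IntermediateField ℚ M) (n : ℕ)
    (hF : Module.finrank ℚ F = 3 ^ n) (δ e : ℤ) (hδ : δ = -1 ∨ δ = 3) [Fact (NonSq δ F)]
    (he : e ≠ 0) (hep : ∀ p : ℕ, p.Prime → (p : ℤ) ∣ e → p = 2 ∨ p = 3 ∨ p % 12 = 7)
    (z : Q2 δ F) (hgood : Good3 e z) : ∃ t : Q2 δ F, z = t ^ 3 := by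
  have : IsAbelianGalois ℚ M := IsCyclotomicExtension.isAbelianGalois {m} ℚ M
  have : IsAbelianGalois ℚ F := IsAbelianGalois.tower_bot ℚ F M
  have : IsGalois ℚ F := this.toIsGalois
  have hδ0 : δ ≠ 0 := by rcases hδ with rfl | rfl <;> norm_num
  have fQ : Fact (NonSq δ ℚ) := by
    rcases hδ with rfl | rfl
    · exact factM1
    · exact fact3
  by_contra hsq
  let _ := selAct3 δ F
  let A : Subgroup (Q2 δ F)ˣ :=
    { carrier := {u | Good3 e (u : Q2 δ F)}
      mul_mem' := fun {a b} ha hb => by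
        change Good3 e ((a * b : (Q2 δ F)ˣ) : Q2 δ F)
        rw [Units.val_mul]
        exact Good3.mul ha hb
      one_mem' := by
        change Good3 e ((1 : (Q2 δ F)ˣ) : Q2 δ F)
        have := Good3.cube (e := e) (1 : Q2 δ F) one_ne_zero
        rwa [one_pow] at this
      inv_mem' := fun {a} ha => by
        change Good3 e ((a⁻¹ : (Q2 δ F)ˣ) : Q2 δ F)
        rw [Units.val_inv_eq_inv_val]
        exact Good3.inv ha }
  obtain ⟨z1, hz1, hz1', hfix⟩ := exists_fixed_mod3 (U := (Q2 δ F)ˣ) (G := F ≃ₐ[ℚ] F) n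
    (by rw [IsGalois.card_aut_eq_finrank, hF]) A
    (fun σ u hu => Good3.map (hu : Good3 e (u : Q2 δ F)) (σ : F ≃+* F)) (Units.mk0 z hgood.ne) hgood
    (by
      rintro ⟨u, hu⟩
      exact hsq ⟨u, by
        have := congrArg (Units.val) hu
        rw [Units.val_pow_eq_pow_val] at this
        exact this⟩)
  have hg1 : Good3 e (z1 : Q2 δ F) := hz1
  obtain ⟨y, hy⟩ := hg1.norm
  obtain ⟨t, ht, z0, hz0⟩ := descend_cube (cube_one_quad F n hF δ hδ) (z1 : Q2 δ F) hg1.ne
    (fun σ => by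
      obtain ⟨u, hu⟩ := hfix σ
      exact ⟨u, by
        have := congrArg (Units.val) hu
        rw [Units.val_mul, Units.val_pow_eq_pow_val] at this
        exact this⟩)
  have hmapinj : Function.Injective (mapQ (D := δ) (algebraMap ℚ F)) :=
    (mapQ (D := δ) (algebraMap ℚ F)).injective
  have hz00 : z0 ≠ 0 := by
    rintro rfl
    rw [map_zero] at hz0
    exact mul_ne_zero hg1.ne (pow_ne_zero 3 ht) hz0.symm
  obtain ⟨r, hr⟩ := descend_rat (cube_one F n hF) z0.norm (y * t.norm) (by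
    rw [← norm_mapQ' (algebraMap ℚ F) z0, hz0, map_mul, map_pow, hy]
    ring)
  -- all valuations are divisible by three
  have heven : ∀ v : HeightOneSpectrum (𝓞 (Q2 δ ℚ)), ∃ g, v.valuation (Q2 δ ℚ) z0 = g ^ 3 := by
    intro v
    by_cases hv : (((6 * δ * e) * m : ℤ) : 𝓞 (Q2 δ ℚ)) ∈ v.asIdeal
    · have hne : ((6 * δ * e) * m : ℤ) ≠ 0 := by
        refine mul_ne_zero (mul_ne_zero (mul_ne_zero (by norm_num) hδ0) he) ?_
        exact_mod_cast hm.1.ne_zero
      obtain ⟨p, hp, hpd, hpv⟩ := exists_prime_of_mem v _ hne hv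
      refine cube_nonsplit δ hδ z0 hz00 r hr p ?_ v hpv
      have hpi : Prime (p : ℤ) := Nat.prime_iff_prime_int.1 hp
      have h2 : (p : ℤ) ∣ 2 → p = 2 := fun h =>
        (Nat.prime_dvd_prime_iff_eq hp Nat.prime_two).1 (by exact_mod_cast h)
      have h3 : (p : ℤ) ∣ 3 → p = 3 := fun h =>
        (Nat.prime_dvd_prime_iff_eq hp Nat.prime_three).1 (by exact_mod_cast h)
      rcases hpi.dvd_or_dvd hpd with h4 | h4
      · rcases hpi.dvd_or_dvd h4 with h5 | h5
        · rcases hpi.dvd_or_dvd h5 with h6 | h6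
          · have h7 : (p : ℤ) ∣ 2 * 3 := by norm_num; exact h6
            rcases hpi.dvd_or_dvd h7 with h8 | h8
            · exact Or.inl (h2 h8)
            · exact Or.inr (Or.inl (h3 h8))
          · rcases hδ with rfl | rfl
            · have : IsUnit (p : ℤ) := isUnit_of_dvd_unit h6 (by decide)
              exact absurd this hpi.not_isUnit
            · exact Or.inr (Or.inl (h3 h6))
        · rcases hep p hp h5 with h6 | h6 | h6
          · exact Or.inl h6
          · exact Or.inr (Or.inl h6)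
          · exact Or.inr (Or.inr ⟨hp, h6⟩)
      · exact Or.inr (Or.inr ⟨hp, hm.2 p hp (Int.natCast_dvd_natCast.1 h4)⟩)
    · obtain ⟨P, hP, hPv⟩ := unram_Q m M F δ (6 * δ * e) v hv
      obtain ⟨g, hg⟩ := hg1.val P hP
      refine ⟨g * P.valuation (Q2 δ F) t, ?_⟩
      rw [← hPv, hz0, map_mul, map_pow, hg, mul_pow]
  have hcube : ∀ s : Q2 δ ℚ, z0 ≠ s ^ 3 := by
    intro s hs
    apply hz1'
    have h1 : (z1 : Q2 δ F) = (mapQ (algebraMap ℚ F) s * t⁻¹) ^ 3 := by
      rw [mul_pow, ← map_pow, ← hs, hz0, mul_assoc, ← mul_pow, mul_inv_cancel₀ ht, one_pow, mul_one]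
    have h2 : mapQ (algebraMap ℚ F) s * t⁻¹ ≠ 0 := by
      intro h0
      rw [h0, zero_pow (by norm_num)] at h1
      exact hg1.ne h1
    refine ⟨Units.mk0 _ h2, ?_⟩
    ext1
    rw [Units.val_pow_eq_pow_val, h1]
    rfl
  rcases hδ with rfl | rfl
  · obtain ⟨s, hs⟩ := cube_neg_one z0 hz00 heven
    exact hcube s hs
  · obtain ⟨s, hs⟩ := cube_three z0 hz00 heven
    have hs0 : s ≠ 0 := by
      rintro rfl
      rw [zero_pow (by norm_num)] at hs
      simp only [mul_zero, or_self] at hs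
      exact hz00 hs
    obtain ⟨v, hv3⟩ := exists_place F 3 Nat.prime_three
    have hv9 := unram_of m M F 3 Nat.prime_three (hm.not_dvd Nat.prime_three (by norm_num)) v hv3
    have hv3' : (3 : 𝓞 F) ∈ v.asIdeal := by exact_mod_cast hv3
    have hv9' : (3 : 𝓞 F) ∉ v.asIdeal ^ 2 := by exact_mod_cast hv9
    have hw3 : v.valuation F 3 = WithZero.exp (-1) := q10_v3 v hv3' hv9'
    have key : ∀ a : Q2 3 ℚ, ∀ s' : F, (s' = 1 ∨ s' = -1) →
        mapQ (algebraMap ℚ F) a = ⟨2, s'⟩ → z0 = a * s ^ 3 → False := by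
      intro a s' hs' ha hza
      apply not_inU3 (v.valuation F) hw3 s' hs'
      have h1 : (⟨2, s'⟩ : Q2 3 F) = (z1 : Q2 3 F) * (t * (mapQ (algebraMap ℚ F) s)⁻¹) ^ 3 := by
        have h2 : mapQ (algebraMap ℚ F) s ≠ 0 := by
          intro h0
          exact hs0 (hmapinj (by rw [h0, map_zero]))
        rw [mul_pow, ← mul_assoc, ← hz0, hza, map_mul, map_pow, ha, mul_assoc, ← mul_pow,
          mul_inv_cancel₀ h2, one_pow, mul_one]
      rw [h1]
      refine InU3.mul (hg1.three rfl v hv3' hv9') (InU3.cube _ _ ?_)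
      rw [isUnit_iff_ne_zero]
      refine mul_ne_zero ht (inv_ne_zero ?_)
      intro h0
      exact hs0 (hmapinj (by rw [h0, map_zero]))
    rcases hs with hs | hs | hs
    · exact hcube s hs
    · refine key ⟨2, 1⟩ 1 (Or.inl rfl) ?_ hs
      rw [mapQ_apply]
      simp
    · refine key ⟨2, -1⟩ (-1) (Or.inr rfl) ?_ hs
      rw [mapQ_apply]
      simp

end SB3
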