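import Pool.Agent.MP_ae0bd0_nt.B3.QDefs
import Pool.Agent.MP_ae0bd0_nt.B3.Q2
import Pool.Agent.MP_ae0bd0_nt.B3.Q6
import Pool.Agent.MP_9ab903_nt.SB.W

/-!
# [SB3-S] definitions for the proof of `Sha(E/F)[3^∞] = 0`, `E : y² = x³ - r²`

The isogeny `iso : W k → W (-27 k)` of degree 3 with kernel `x = 0`, and the functions attached
to it. `W k : y² = x³ + k`.
-/

set_option autoImplicit false

open NumberField IsDedekindDomain CM27 BS3
open scoped Classical

namespace SB3

/-- The data of a descent by the isogeny of degree `3`: `-3 k = δ e²`, `k ≠ 0`. -/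
structure Dat (k δ e : ℤ) : Prop where
  eq : -3 * k = δ * e ^ 2
  ne : k ≠ 0

theorem Dat.e_ne {k δ e : ℤ} (h : Dat k δ e) : e ≠ 0 := by
  rintro rfl
  have := h.eq
  have := h.ne
  omega

theorem Dat.d_ne {k δ e : ℤ} (h : Dat k δ e) : δ ≠ 0 := by
  rintro rfl
  have := h.eq
  have := h.ne
  omega

theorem dat_three (r : ℤ) (hr : r ≠ 0) : Dat (-r ^ 2) 3 r where
  eq := by ring
  ne := by
    have := pow_ne_zero 2 hr
    omega

theorem dat_neg_one (r : ℤ) (hr : r ≠ 0) : Dat (-27 * -r ^ 2) (-1) (9 * r) where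
  eq := by ring
  ne := by
    have := pow_ne_zero 2 hr
    omega

theorem iso_nonsing {k : ℤ} (hk : k ≠ 0) {K : Type} [Field K] [CharZero K] {x y : K}
    (h : (W k K).toAffine.Nonsingular x y) (hx : x ≠ 0) :
    (W (-27 * k) K).toAffine.Nonsingular ((x ^ 3 + 4 * k) / x ^ 2) (y * (x ^ 3 - 8 * k) / x ^ 3) := by
  have h1 := (W_nonsingular hk x y).1 h
  rw [W_nonsingular (mul_ne_zero (by norm_num) hk)]
  push_cast
  field_simp
  linear_combination (x ^ 3 - 8 * k) ^ 2 * h1

/-- The isogeny `W k → W (-27 k)` of degree `3` with kernel `x = 0`. -/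
noncomputable def iso {k : ℤ} (hk : k ≠ 0) {K : Type} [Field K] [CharZero K] :
    (W k K).toAffine.Point → (W (-27 * k) K).toAffine.Point
  | .zero => .zero
  | .some x y h => if hx : x = 0 then .zero else
      .some ((x ^ 3 + 4 * k) / x ^ 2) (y * (x ^ 3 - 8 * k) / x ^ 3) (iso_nonsing hk h hx)

/-- The kernel of `iso`. -/
def Ker {k : ℤ} {K : Type} [Field K] : (W k K).toAffine.Point → Prop
  | .zero => True
  | .some x _ _ => x = 0

theorem scal_nonsing {k k' : ℤ} {K : Type} [Field K] (u : K) (hu : u ≠ 0)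
    (h : (k' : K) = u ^ 6 * k) {x y : K} (hxy : (W k K).toAffine.Nonsingular x y) :
    (W k' K).toAffine.Nonsingular (u ^ 2 * x) (u ^ 3 * y) := by
  rw [WeierstrassCurve.Affine.nonsingular_iff] at hxy ⊢
  rw [W_equation] at hxy ⊢
  obtain ⟨h1, h2⟩ := hxy
  refine ⟨?_, ?_⟩
  · rw [h]
    linear_combination u ^ 6 * h1
  · simp only [W] at h2 ⊢
    rcases h2 with h2 | h2
    · left
      intro h3
      apply h2
      have h4 : u ^ 4 ≠ 0 := pow_ne_zero 4 hu
      apply mul_left_cancel₀ h4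
      linear_combination h3
    · right
      intro h3
      apply h2
      have h4 : u ^ 3 ≠ 0 := pow_ne_zero 3 hu
      apply mul_left_cancel₀ h4
      linear_combination h3

/-- The isomorphism `(x, y) ↦ (u² x, u³ y)`, `W k → W (u⁶ k)`. -/
def scal {k k' : ℤ} {K : Type} [Field K] (u : K) (hu : u ≠ 0) (h : (k' : K) = u ^ 6 * k) :
    (W k K).toAffine.Point → (W k' K).toAffine.Point
  | .zero => .zero
  | .some x y hxy => .some (u ^ 2 * x) (u ^ 3 * y) (scal_nonsing u hu h hxy)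

/-- The function `ρ : W k (K) → K(√δ)` with `ρ(P)³ = zq δ (3 e) (iso P)`. -/
noncomputable def rho (δ e : ℤ) {k : ℤ} {K : Type} [Field K] : (W k K).toAffine.Point → Q2 δ K
  | .zero => 1
  | .some x y _ => if x = 0 then ⟨-1 / 2, -3 * y / (2 * δ * e)⟩ else ⟨y / x, -e / x⟩

/-- The local condition at an extension `L` of `F`: the class of `z` is the class of a point of
`W (-27 k)` (the second alternative occurs only if `δ` is a square in `L`). -/
def LocCond3 (k : ℤ) {δ : ℤ} (e : ℤ) {F : Type} [Field F] (z : Q2 δ F) (L : Type) [Field L]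
    [Algebra F L] : Prop :=
  (∃ (P : (W (-27 * k) L).toAffine.Point) (u : Q2 δ L), IsUnit u ∧
    mapQ (algebraMap F L) z = zq δ (3 * e) P * u ^ 3) ∨
  ∃ (s g : L) (hs : s * s = (δ : L)), g ≠ 0 ∧
    q6_lift (algebraMap F L) s hs z = 6 * e * s * g ^ 3

/-- `z` is, modulo cubes, of the form `a + b √δ` with `w a = 1`, `w b < 1`. -/
def InU3 {F : Type} [Field F] {δ : ℤ} (w : Valuation F (WithZero (Multiplicative ℤ)))
    (z : Q2 δ F) : Prop :=
  ∃ (u : Q2 δ F) (a b : F), IsUnit u ∧ z * u ^ 3 = ⟨a, b⟩ ∧ w a = 1 ∧ w b < 1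

/-- `F(√δ)` is a number field. -/
instance numberFieldQ2F {δ : ℤ} {F : Type} [Field F] [NumberField F] [Fact (NonSq δ F)] :
    NumberField (Q2 δ F) where
  to_charZero := charZeroQ2
  to_finiteDimensional := by
    have h1 : Module.Finite F (QuadraticAlgebra F (δ : F) 0) := inferInstance
    exact Module.Finite.trans F (Q2 δ F)

/-- The elements of `F(√δ)` which satisfy the conditions of a Selmer element outside the places
with bad ramification. -/
structure Good3 {F : Type} [Field F] [NumberField F] {δ : ℤ} (e : ℤ) [Fact (NonSq δ F)]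
    (z : Q2 δ F) : Prop where
  ne : z ≠ 0
  norm : ∃ n : F, z.norm = n ^ 3
  val : ∀ P : HeightOneSpectrum (𝓞 (Q2 δ F)), ((6 * δ * e : ℤ) : 𝓞 (Q2 δ F)) ∉ P.asIdeal →
    ∃ g, P.valuation (Q2 δ F) z = g ^ 3
  three : δ = 3 → ∀ v : HeightOneSpectrum (𝓞 F), (3 : 𝓞 F) ∈ v.asIdeal →
    (3 : 𝓞 F) ∉ v.asIdeal ^ 2 → InU3 (v.valuation F) z

/-- locally constant crossed homomorphisms (for the points of `W k` with the maps `ptW`) -/
structure Coc3 (k : ℤ) (F L : Type) [Field F] [Field L] [Algebra F L]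
    (c : (L ≃ₐ[F] L) → (W k L).toAffine.Point) : Prop where
  loc : IsLocallyConstant c
  crossed : ∀ σ τ : L ≃ₐ[F] L, c (σ * τ) = c σ + ptW (σ : L →+* L) (c τ)

/-- The crossed homomorphism `c` becomes principal over the extension `Fv` of `F` (with algebraic
closure `Lv`), for every embedding. -/
def LocTriv {k : ℤ} {F L : Type} [Field F] [Field L] [Algebra F L]
    (c : (L ≃ₐ[F] L) → (W k L).toAffine.Point) (Fv Lv : Type) [Field Fv] [Algebra F Fv]
    [Field Lv] [Algebra Fv Lv] [Algebra F Lv] [IsScalarTower F Fv Lv] : Prop :=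
  ∀ ι : L →ₐ[F] Lv, ∃ Q : (W k Lv).toAffine.Point,
    ∀ (τ : Lv ≃ₐ[Fv] Lv) (σ : L ≃ₐ[F] L), (∀ x, ι (σ x) = τ (ι x)) →
      ptW (ι : L →+* Lv) (c σ) = ptW (τ : Lv →+* Lv) Q - Q

end SB3
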