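import Pool.Agent.MP_9ab903_nt.S3.SDefs

set_option autoImplicit false

open NumberField IsDedekindDomain CM27 BS3
open scoped Classical

namespace SB3

/-! ## [SB3-S1] the isomorphisms `scal` are additive (file S1.lean) -/

theorem s1_negY {k : ℤ} {K : Type} [Field K] (x y : K) :
    (W k K).toAffine.negY x y = -y := by
  simp [WeierstrassCurve.Affine.negY, W]

theorem s1_addX {k : ℤ} {K : Type} [Field K] (x₁ x₂ l : K) :
    (W k K).toAffine.addX x₁ x₂ l = l ^ 2 - x₁ - x₂ := by
  simp [WeierstrassCurve.Affine.addX, W]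

theorem s1_addY {k : ℤ} {K : Type} [Field K] (x₁ x₂ y₁ l : K) :
    (W k K).toAffine.addY x₁ x₂ y₁ l = -(l * (l ^ 2 - x₁ - x₂ - x₁) + y₁) := by
  simp only [WeierstrassCurve.Affine.addY, WeierstrassCurve.Affine.negAddY, s1_negY, s1_addX]

theorem s1_slope {k k' : ℤ} {K : Type} [Field K] (u : K) (hu : u ≠ 0) (x₁ x₂ y₁ y₂ : K)
    (h₁ : (W k K).toAffine.Equation x₁ y₁) (h₂ : (W k K).toAffine.Equation x₂ y₂)
    (hxy : ¬ (x₁ = x₂ ∧ y₁ = (W k K).toAffine.negY x₂ y₂)) :
    (W k' K).toAffine.slope (u ^ 2 * x₁) (u ^ 2 * x₂) (u ^ 3 * y₁) (u ^ 3 * y₂) =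
      u * (W k K).toAffine.slope x₁ x₂ y₁ y₂ := by
  have hu2 : u ^ 2 ≠ 0 := pow_ne_zero 2 hu
  have hu3 : u ^ 3 ≠ 0 := pow_ne_zero 3 hu
  by_cases hx : x₁ = x₂
  · have hy : y₁ ≠ (W k K).toAffine.negY x₂ y₂ := fun h => hxy ⟨hx, h⟩
    have hy12 : y₁ = y₂ := WeierstrassCurve.Affine.Y_eq_of_Y_ne h₁ h₂ hx hy
    have hy' : u ^ 3 * y₁ ≠ (W k' K).toAffine.negY (u ^ 2 * x₂) (u ^ 3 * y₂) := by
      rw [s1_negY] at hy ⊢
      intro h
      apply hy
      apply mul_left_cancel₀ hu3
      linear_combination h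
    rw [WeierstrassCurve.Affine.slope_of_Y_ne hx hy,
      WeierstrassCurve.Affine.slope_of_Y_ne (by rw [hx]) hy']
    rw [s1_negY] at hy
    rw [s1_negY, s1_negY]
    simp only [W]
    have h2 : y₁ - -y₁ ≠ 0 := by
      intro h
      apply hy
      rw [← hy12]
      linear_combination h
    have h3 : u ^ 3 * y₁ - -(u ^ 3 * y₁) ≠ 0 := by
      have : u ^ 3 * y₁ - -(u ^ 3 * y₁) = u ^ 3 * (y₁ - -y₁) := by ring
      rw [this]
      exact mul_ne_zero hu3 h2
    rw [div_eq_iff h3, mul_div_assoc', div_mul_eq_mul_div, eq_div_iff h2]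
    ring
  · have hx' : u ^ 2 * x₁ ≠ u ^ 2 * x₂ := fun h => hx (mul_left_cancel₀ hu2 h)
    rw [WeierstrassCurve.Affine.slope_of_X_ne hx, WeierstrassCurve.Affine.slope_of_X_ne hx']
    have h2 : x₁ - x₂ ≠ 0 := sub_ne_zero.2 hx
    have h3 : u ^ 2 * x₁ - u ^ 2 * x₂ ≠ 0 := sub_ne_zero.2 hx'
    rw [div_eq_iff h3, mul_div_assoc', div_mul_eq_mul_div, eq_div_iff h2]
    ring

theorem scal_add {k k' : ℤ} {K : Type} [Field K] [CharZero K] (u : K) (hu : u ≠ 0)
    (h : (k' : K) = u ^ 6 * k) (P Q : (W k K).toAffine.Point) :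
    scal u hu h (P + Q) = scal u hu h P + scal u hu h Q := by
  cases P with
  | zero =>
    have h0 : (WeierstrassCurve.Affine.Point.zero : (W k K).toAffine.Point) = 0 := rfl
    have h1 : scal u hu h (0 : (W k K).toAffine.Point) = 0 := rfl
    rw [h0, zero_add, h1, zero_add]
  | some x₁ y₁ h₁ =>
    cases Q with
    | zero =>
      have h0 : (WeierstrassCurve.Affine.Point.zero : (W k K).toAffine.Point) = 0 := rfl
      have h1 : scal u hu h (0 : (W k K).toAffine.Point) = 0 := rfl
      rw [h0, add_zero, h1, add_zero]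
    | some x₂ y₂ h₂ =>
      by_cases hxy : x₁ = x₂ ∧ y₁ = (W k K).toAffine.negY x₂ y₂
      · rw [WeierstrassCurve.Affine.Point.add_of_Y_eq hxy.1 hxy.2]
        have h1 : scal u hu h (0 : (W k K).toAffine.Point) = 0 := rfl
        rw [h1]
        symm
        apply WeierstrassCurve.Affine.Point.add_of_Y_eq
        · rw [hxy.1]
        · rw [hxy.2, s1_negY, s1_negY]
          ring
      · rw [WeierstrassCurve.Affine.Point.add_some hxy]
        have hxy' : ¬ (u ^ 2 * x₁ = u ^ 2 * x₂ ∧
            u ^ 3 * y₁ = (W k' K).toAffine.negY (u ^ 2 * x₂) (u ^ 3 * y₂)) := by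
          rintro ⟨h3, h4⟩
          apply hxy
          rw [s1_negY] at h4 ⊢
          refine ⟨mul_left_cancel₀ (pow_ne_zero 2 hu) h3,
            mul_left_cancel₀ (pow_ne_zero 3 hu) ?_⟩
          linear_combination h4
        simp only [scal]
        rw [WeierstrassCurve.Affine.Point.add_some hxy']
        rw [WeierstrassCurve.Affine.Point.some.injEq]
        rw [s1_slope u hu x₁ x₂ y₁ y₂ h₁.1 h₂.1 hxy]
        simp only [s1_addX, s1_addY]
        constructor <;> ring

theorem scal_injective {k k' : ℤ} {K : Type} [Field K] (u : K) (hu : u ≠ 0)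
    (h : (k' : K) = u ^ 6 * k) :
    Function.Injective (scal (k := k) (k' := k') u hu h) := by
  intro P Q hPQ
  cases P with
  | zero =>
    cases Q with
    | zero => rfl
    | some x y hQ => simp only [scal] at hPQ; cases hPQ
  | some x y hP =>
    cases Q with
    | zero => simp only [scal] at hPQ; cases hPQ
    | some x' y' hQ =>
      simp only [scal, WeierstrassCurve.Affine.Point.some.injEq] at hPQ
      rw [WeierstrassCurve.Affine.Point.some.injEq]
      exact ⟨mul_left_cancel₀ (pow_ne_zero 2 hu) hPQ.1,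
        mul_left_cancel₀ (pow_ne_zero 3 hu) hPQ.2⟩

theorem scal_ptW {k k' : ℤ} {K L : Type} [Field K] [Field L] (f : K →+* L) (u : K) (hu : u ≠ 0)
    (h : (k' : K) = u ^ 6 * k) (hu' : f u ≠ 0) (h' : (k' : L) = f u ^ 6 * k)
    (P : (W k K).toAffine.Point) : scal (f u) hu' h' (ptW f P) = ptW f (scal u hu h P) := by
  cases P with
  | zero => rfl
  | some x y hP =>
    simp only [scal, ptW, map_mul, map_pow]

theorem scal_scal {k k' k'' : ℤ} {K : Type} [Field K] (u u' : K) (hu : u ≠ 0) (hu' : u' ≠ 0)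
    (h : (k' : K) = u ^ 6 * k) (h' : (k'' : K) = u' ^ 6 * k') (hu'' : u' * u ≠ 0)
    (h'' : (k'' : K) = (u' * u) ^ 6 * k) (P : (W k K).toAffine.Point) :
    scal u' hu' h' (scal u hu h P) = scal (u' * u) hu'' h'' P := by
  cases P with
  | zero => rfl
  | some x y hP =>
    simp only [scal, WeierstrassCurve.Affine.Point.some.injEq]
    constructor <;> ring

theorem scal_one {k : ℤ} {K : Type} [Field K] (h : (k : K) = (1 : K) ^ 6 * k)
    (P : (W k K).toAffine.Point) : scal 1 one_ne_zero h P = P := by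
  cases P with
  | zero => rfl
  | some x y hP =>
    simp only [scal, WeierstrassCurve.Affine.Point.some.injEq]
    constructor <;> ring

theorem scal_neg {k k' : ℤ} {K : Type} [Field K] (u : K) (hu : u ≠ 0)
    (h : (k' : K) = u ^ 6 * k) (hu' : -u ≠ 0) (h' : (k' : K) = (-u) ^ 6 * k)
    (P : (W k K).toAffine.Point) : scal (-u) hu' h' P = -scal u hu h P := by
  cases P with
  | zero => rfl
  | some x y hP =>
    simp only [scal, WeierstrassCurve.Affine.Point.neg_some,
      WeierstrassCurve.Affine.Point.some.injEq, s1_negY]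
    constructor <;> ring

theorem scal_surj {k k' : ℤ} {K : Type} [Field K] [CharZero K] (u : K) (hu : u ≠ 0)
    (h : (k' : K) = u ^ 6 * k) (P : (W k' K).toAffine.Point) :
    ∃ Q : (W k K).toAffine.Point, scal u hu h Q = P := by
  have hi : u⁻¹ ≠ 0 := inv_ne_zero hu
  have h2 : (k : K) = u⁻¹ ^ 6 * k' := by
    rw [h, ← mul_assoc, ← mul_pow, inv_mul_cancel₀ hu, one_pow, one_mul]
  refine ⟨scal u⁻¹ hi h2 P, ?_⟩
  have h3 : u * u⁻¹ = 1 := mul_inv_cancel₀ hu
  rw [scal_scal u⁻¹ u hi hu h2 h (by rw [h3]; exact one_ne_zero) (by rw [h3]; ring)]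
  cases P with
  | zero => rfl
  | some x y hP =>
    simp only [scal, WeierstrassCurve.Affine.Point.some.injEq, h3]
    constructor <;> ring

/-- `P + ω P + ω² P = 0` -/
theorem scal_omega {k : ℤ} (hk : k ≠ 0) {K : Type} [Field K] [CharZero K] (o : K)
    (ho : o ^ 2 + o + 1 = 0) (ho0 : o ≠ 0) (ho2 : o ^ 2 ≠ 0) (h1 : (k : K) = o ^ 6 * k)
    (h2 : (k : K) = (o ^ 2) ^ 6 * k) (P : (W k K).toAffine.Point) :
    P + scal o ho0 h1 P + scal (o ^ 2) ho2 h2 P = 0 := by
  have ho3 : o ^ 3 = 1 := by linear_combination (o - 1) * ho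
  have ho1 : o ^ 2 ≠ 1 := by
    intro h
    have h3 : o = -2 := by linear_combination ho - h
    rw [h3] at ho
    norm_num at ho
  cases P with
  | zero => rfl
  | some x y hP =>
    have hxy := (W_nonsingular hk x y).1 hP
    simp only [scal]
    rw [add_eq_zero_iff_eq_neg]
    have hneg : ¬ (x = o ^ 2 * x ∧ y = (W k K).toAffine.negY (o ^ 2 * x) (o ^ 3 * y)) := by
      rw [s1_negY, ho3]
      rintro ⟨h3, h4⟩
      have hy : y = 0 := by
        have : (2 : K) * y = 0 := by linear_combination h4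
        simpa using this
      have hx : x = 0 := by
        by_contra hx
        apply ho1
        apply mul_right_cancel₀ hx
        rw [one_mul]
        exact h3.symm
      rw [hx, hy] at hxy
      have : (k : K) = 0 := by linear_combination -hxy
      exact hk (by exact_mod_cast this)
    rw [WeierstrassCurve.Affine.Point.add_some hneg, WeierstrassCurve.Affine.Point.neg_some,
      WeierstrassCurve.Affine.Point.some.injEq]
    simp only [s1_addX, s1_addY, s1_negY]
    have hs : (W k K).toAffine.slope x (o ^ 2 * x) y (o ^ 3 * y) = 0 := by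
      by_cases hx : x = 0
      · rw [s1_negY] at hneg
        have hy : y ≠ (W k K).toAffine.negY (o ^ 2 * x) (o ^ 3 * y) := by
          rw [s1_negY]
          intro h3
          exact hneg ⟨by rw [hx, mul_zero], h3⟩
        rw [WeierstrassCurve.Affine.slope_of_Y_ne (by rw [hx, mul_zero]) hy]
        simp [W, hx]
      · have hx' : x ≠ o ^ 2 * x := by
          intro h3
          apply ho1
          apply mul_right_cancel₀ hx
          rw [one_mul]
          exact h3.symm
        rw [WeierstrassCurve.Affine.slope_of_X_ne hx', ho3, one_mul, sub_self, zero_div]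
    rw [hs]
    constructor
    · linear_combination (-x * o) * ho3 - x * ho
    · linear_combination (y + y * o ^ 3) * ho3

end SB3
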