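import Pool.Agent.MP_9ab903_nt.S3.SDefs
import Pool.Agent.MP_ae0bd0_nt.B3.Q10

set_option autoImplicit false

open NumberField IsDedekindDomain CM27 BS3
open scoped Classical

namespace SB3

/-! ## [SB3-S14] the group `InU3` (file S14.lean) -/

theorem s14_int_le {F : Type} [Field F] (w : Valuation F (WithZero (Multiplicative ℤ))) (k : ℤ) :
    w (k : F) ≤ 1 := by
  have := q10_int w k
  unfold q10_ge at this
  rwa [neg_zero, WithZero.exp_zero] at this

theorem InU3.mul {F : Type} [Field F] {δ : ℤ} {w : Valuation F (WithZero (Multiplicative ℤ))}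
    {z z' : Q2 δ F} (h : InU3 w z) (h' : InU3 w z') : InU3 w (z * z') := by
  obtain ⟨u, a, b, hu, hz, ha, hb⟩ := h
  obtain ⟨u', a', b', hu', hz', ha', hb'⟩ := h'
  refine ⟨u * u', a * a' + (δ : F) * (b * b'), a * b' + b * a', hu.mul hu', ?_, ?_, ?_⟩
  · have e : z * z' * (u * u') ^ 3 = z * u ^ 3 * (z' * u' ^ 3) := by ring
    rw [e, hz, hz']
    ext
    · simp only [QuadraticAlgebra.re_mul]
      ring
    · simp only [QuadraticAlgebra.im_mul]
      ring
  · have h1 : w (a * a') = 1 := by rw [map_mul, ha, ha', one_mul]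
    rw [Valuation.map_add_eq_of_lt_left, h1]
    rw [h1, map_mul, map_mul]
    calc w (δ : F) * (w b * w b') ≤ 1 * (w b * w b') := by
          gcongr; exact s14_int_le w δ
      _ = w b * w b' := one_mul _
      _ < 1 := mul_lt_one_of_nonneg_of_lt_one_left zero_le hb hb'.le
  · refine lt_of_le_of_lt (w.map_add _ _) (max_lt ?_ ?_)
    · rw [map_mul, ha, one_mul]; exact hb'
    · rw [map_mul, ha', mul_one]; exact hb

theorem InU3.cube {F : Type} [Field F] {δ : ℤ} (w : Valuation F (WithZero (Multiplicative ℤ)))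
    (t : Q2 δ F) (ht : IsUnit t) : InU3 w (t ^ 3) := by
  obtain ⟨t, rfl⟩ := ht
  refine ⟨↑t⁻¹, 1, 0, Units.isUnit _, ?_, map_one w, ?_⟩
  · rw [← mul_pow, Units.mul_inv, one_pow]
    ext
    · rw [QuadraticAlgebra.re_one]
    · rw [QuadraticAlgebra.im_one]
  · rw [map_zero]; exact zero_lt_one

theorem InU3.map {F : Type} [Field F] {δ : ℤ} {w w' : Valuation F (WithZero (Multiplicative ℤ))}
    (σ : F →+* F) (hw : ∀ x, w' x = w (σ x)) {z : Q2 δ F} (h : InU3 w' z) :
    InU3 w (mapQ σ z) := by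
  obtain ⟨u, a, b, hu, hz, ha, hb⟩ := h
  refine ⟨mapQ σ u, σ a, σ b, hu.map (mapQ σ), ?_, ?_, ?_⟩
  · rw [← map_pow, ← map_mul, hz, mapQ_apply]
  · rw [← hw, ha]
  · rw [← hw]; exact hb

theorem s14_mul_cube {K : Type} [Field K] (z1 z2 x1 x2 : K) :
    (⟨z1, z2⟩ : Q2 3 K) * (⟨x1, x2⟩ : Q2 3 K) ^ 3 =
      ⟨z1 * (x1 ^ 3 + 9 * x1 * x2 ^ 2) + 3 * z2 * (3 * x1 ^ 2 * x2 + 3 * x2 ^ 3),
        z1 * (3 * x1 ^ 2 * x2 + 3 * x2 ^ 3) + z2 * (x1 ^ 3 + 9 * x1 * x2 ^ 2)⟩ := by
  ext
  · simp only [pow_succ, pow_zero, one_mul, QuadraticAlgebra.re_mul, QuadraticAlgebra.im_mul]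
    push_cast
    ring
  · simp only [pow_succ, pow_zero, one_mul, QuadraticAlgebra.re_mul, QuadraticAlgebra.im_mul]
    push_cast
    ring

/-- `2 ± √3` is not in the group -/
theorem not_inU3 {F : Type} [Field F] (w : Valuation F (WithZero (Multiplicative ℤ)))
    (h3 : w 3 = WithZero.exp (-1)) (s : F) (hs : s = 1 ∨ s = -1) :
    ¬ InU3 w (⟨2, s⟩ : Q2 3 F) := by
  rintro ⟨⟨c, d⟩, a, b, -, hz, ha, hb⟩
  have h3' : q10_eq w (3 : F) 1 := h3
  have hs2 : s ^ 2 = 1 := by rcases hs with rfl | rfl <;> norm_num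
  rw [s14_mul_cube] at hz
  have e1 := congrArg QuadraticAlgebra.re hz
  have e2 := congrArg QuadraticAlgebra.im hz
  simp only at e1 e2
  have hN : (c ^ 2 - 3 * d ^ 2) ^ 3 = a ^ 2 - 3 * b ^ 2 := by
    rw [← e1, ← e2]
    linear_combination (3 * (c ^ 2 - 3 * d ^ 2) ^ 3) * hs2
  have hb1 : q10_ge w b 1 := by
    rcases eq_or_ne b 0 with rfl | hb0
    · exact q10_ge_zero
    · obtain ⟨k, hk⟩ := q10_exists (w := w) hb0
      have h1 := hb
      unfold q10_eq at hk
      rw [hk, ← WithZero.exp_zero, WithZero.exp_lt_exp] at h1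
      unfold q10_ge
      rw [hk, WithZero.exp_le_exp]
      omega
  have ha0 : q10_eq w a 0 := by
    unfold q10_eq
    rw [ha, neg_zero, WithZero.exp_zero]
  have hN1 : q10_eq w ((c ^ 2 - 3 * d ^ 2) ^ 3) 0 := by
    rw [hN, sub_eq_add_neg]
    have h1 := ha0.mul ha0
    rw [← sq] at h1
    refine h1.add ?_
    have h2 := (h3'.ge.mul (hb1.mul hb1)).neg
    rw [← sq] at h2
    exact h2.mono (by omega)
  have hNne : c ^ 2 - 3 * d ^ 2 ≠ 0 := by
    intro h0
    rw [h0] at hN1
    unfold q10_eq at hN1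
    rw [zero_pow (by norm_num), map_zero] at hN1
    exact WithZero.exp_ne_zero hN1.symm
  have hN0 : q10_eq w (c ^ 2 - 3 * d ^ 2) 0 := by
    obtain ⟨k, hk⟩ := q10_exists (w := w) hNne
    have h1 := (hk.mul hk).mul hk
    rw [← sq, ← pow_succ] at h1
    have h2 := hN1.unique h1
    have : k = 0 := by omega
    rw [← this]; exact hk
  -- the orders of `c` and `d`
  have key : q10_eq w c 0 ∧ q10_ge w d 0 := by
    rcases eq_or_ne c 0 with rfl | hc0
    · exfalso
      have hd0 : d ≠ 0 := by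
        rintro rfl
        simp at hNne
      obtain ⟨n, hn⟩ := q10_exists (w := w) hd0
      have h1 := (h3'.mul (hn.mul hn)).neg
      have e : -(3 * (d * d)) = (0 : F) ^ 2 - 3 * d ^ 2 := by ring
      rw [e] at h1
      have := hN0.unique h1
      omega
    · obtain ⟨m, hm⟩ := q10_exists (w := w) hc0
      have hm2 := hm.mul hm
      rw [← sq] at hm2
      rcases eq_or_ne d 0 with rfl | hd0
      · have e : c ^ 2 - 3 * (0 : F) ^ 2 = c ^ 2 := by ring
        rw [e] at hN0
        have := hN0.unique hm2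
        have hm0 : m = 0 := by omega
        subst hm0
        exact ⟨hm, q10_ge_zero⟩
      · obtain ⟨n, hn⟩ := q10_exists (w := w) hd0
        have hn2 := (h3'.mul (hn.mul hn)).neg
        rw [← sq] at hn2
        rcases lt_or_ge (m + m) (1 + (n + n)) with hlt | hge
        · have h1 := hm2.add (hn2.ge.mono (m := m + m + 1) (by omega))
          rw [← sub_eq_add_neg] at h1
          have := hN0.unique h1
          have hm0 : m = 0 := by omega
          subst hm0
          exact ⟨hm, hn.ge.mono (by omega)⟩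
        · exfalso
          have h1 := hn2.add (hm2.ge.mono (m := 1 + (n + n) + 1) (by omega))
          have e : -(3 * d ^ 2) + c ^ 2 = c ^ 2 - 3 * d ^ 2 := by ring
          rw [e] at h1
          have := hN0.unique h1
          omega
  obtain ⟨hc, hd⟩ := key
  have hsu : q10_eq w s 0 := by
    rcases hs with rfl | rfl
    · exact q10_one
    · exact q10_one.neg
  have t1 : q10_eq w (s * c ^ 3) 0 := by
    have := hsu.mul ((hc.mul hc).mul hc)
    rw [← sq, ← pow_succ] at this
    simpa using this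
  have h2 : q10_ge w (2 : F) 0 := by
    have := q10_int w 2
    simpa using this
  have t2 : q10_ge w (2 * (3 * c ^ 2 * d + 3 * d ^ 3) + s * (9 * c * d ^ 2)) 1 := by
    have hc' := hc.ge
    have a1 : q10_ge w (c ^ 2 * d + d ^ 3) 0 := by
      have b1 : q10_ge w (c ^ 2 * d) 0 := by
        have := (hc'.mul hc').mul hd
        rw [← sq] at this
        simpa using this
      have b2 : q10_ge w (d ^ 3) 0 := by
        have := (hd.mul hd).mul hd
        rw [← sq, ← pow_succ] at this
        simpa using this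
      exact b1.add b2
    have a2 : q10_ge w (2 * (c ^ 2 * d + d ^ 3) + s * (3 * c * d ^ 2)) 0 := by
      have b1 : q10_ge w (2 * (c ^ 2 * d + d ^ 3)) 0 := by
        have := h2.mul a1
        simpa using this
      have b2 : q10_ge w (s * (3 * c * d ^ 2)) 0 := by
        have := hsu.ge.mul (((h3'.ge.mono (m := 0) (by omega)).mul hc').mul (hd.mul hd))
        rw [← sq] at this
        simpa using this
      exact b1.add b2
    have := h3'.ge.mul a2
    have e : 3 * (2 * (c ^ 2 * d + d ^ 3) + s * (3 * c * d ^ 2)) =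
        2 * (3 * c ^ 2 * d + 3 * d ^ 3) + s * (9 * c * d ^ 2) := by ring
    rw [e] at this
    simpa using this
  have t3 := t1.add (t2.mono (m := 0 + 1) (by omega))
  have e : s * c ^ 3 + (2 * (3 * c ^ 2 * d + 3 * d ^ 3) + s * (9 * c * d ^ 2)) = b := by
    rw [← e2]; ring
  rw [e] at t3
  have := t3.le hb1
  omega

end SB3
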